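import Pool.Agent.Lib.MP_27bb56_co_TRI.Ineq

/-! # interval arithmetic for the inequality `area ≤ 1 / 2` -/

set_option autoImplicit false

namespace MaxTri

/-- rational bounds for the two coefficients of a line -/
structure Bd where
  la : ℚ
  ua : ℚ
  lb : ℚ
  ub : ℚ

/-- the coefficients lie in the bounds -/
structure Inb (B : Bd) (a b : ℝ) : Prop where
  pa : (0 : ℝ) < B.la
  ha : (B.la : ℝ) ≤ a
  ha' : a ≤ B.ua
  pb : (0 : ℝ) < B.lb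
  hb : (B.lb : ℝ) ≤ b
  hb' : b ≤ B.ub

/-- lower bound of the minor -/
def dlo (p q : Bd) : ℚ := p.la * q.lb - q.ua * p.ub

/-- upper bound of the minor -/
def dhi (p q : Bd) : ℚ := p.ua * q.ub - q.la * p.lb

theorem dlo_le {p q : Bd} {a b a' b' : ℝ} (hp : Inb p a b) (hq : Inb q a' b') :
    (dlo p q : ℝ) ≤ a * b' - a' * b := by
  have h1 : (p.la : ℝ) * q.lb ≤ a * b' :=
    mul_le_mul hp.ha hq.hb hq.pb.le (hp.pa.le.trans hp.ha)
  have h2 : a' * b ≤ (q.ua : ℝ) * p.ub :=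
    mul_le_mul hq.ha' hp.hb' (hp.pb.le.trans hp.hb) ((hq.pa.le.trans hq.ha).trans hq.ha')
  unfold dlo
  push_cast
  linarith

theorem le_dhi {p q : Bd} {a b a' b' : ℝ} (hp : Inb p a b) (hq : Inb q a' b') :
    a * b' - a' * b ≤ (dhi p q : ℝ) := by
  have h1 : (q.la : ℝ) * p.lb ≤ a' * b :=
    mul_le_mul hq.ha hp.hb hp.pb.le (hq.pa.le.trans hq.ha)
  have h2 : a * b' ≤ (p.ua : ℝ) * q.ub :=
    mul_le_mul hp.ha' hq.hb' (hq.pb.le.trans hq.hb) ((hp.pa.le.trans hp.ha).trans hp.ha')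
  unfold dhi
  push_cast
  linarith

/-- the check for three lines -/
def chk (p q r : Bd) : Bool :=
  decide (0 < dlo p q ∧ 0 < dlo q r ∧ 0 < dlo p r ∧
    max (dhi q r + dhi p q - dlo p r) (dhi p r - dlo q r - dlo p q) ^ 2 ≤
      dlo p q * dlo q r * dlo p r)

theorem sq_le_of {z m : ℝ} (h1 : z ≤ m) (h2 : -z ≤ m) : z ^ 2 ≤ m ^ 2 := by
  apply sq_le_sq'
  · linarith
  · exact h1

theorem ok_chk {p q r : Bd} {a₁ b₁ a₂ b₂ a₃ b₃ : ℝ} (hp : Inb p a₁ b₁) (hq : Inb q a₂ b₂)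
    (hr : Inb r a₃ b₃) (h : chk p q r = true) : Ok (a₁, b₁, 1) (a₂, b₂, 1) (a₃, b₃, 1) := by
  have h' := of_decide_eq_true h
  obtain ⟨h1, h2, h3, h4⟩ := h'
  have h1' : (0 : ℝ) < dlo p q := by exact_mod_cast h1
  have h2' : (0 : ℝ) < dlo q r := by exact_mod_cast h2
  have h3' : (0 : ℝ) < dlo p r := by exact_mod_cast h3
  have h4' : (max ((dhi q r : ℝ) + dhi p q - dlo p r) ((dhi p r : ℝ) - dlo q r - dlo p q)) ^ 2 ≤
      (dlo p q : ℝ) * dlo q r * dlo p r := by exact_mod_cast h4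
  apply ok_of
  have a1 := dlo_le hp hq
  have a2 := dlo_le hq hr
  have a3 := dlo_le hp hr
  have b1 := le_dhi hp hq
  have b2 := le_dhi hq hr
  have b3 := le_dhi hp hr
  set D12 := a₁ * b₂ - a₂ * b₁
  set D23 := a₂ * b₃ - a₃ * b₂
  set D13 := a₁ * b₃ - a₃ * b₁
  refine le_trans (sq_le_of (m := max ((dhi q r : ℝ) + dhi p q - dlo p r)
    ((dhi p r : ℝ) - dlo q r - dlo p q)) ?_ ?_) (le_trans h4' ?_)
  · refine le_trans ?_ (le_max_left _ _)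
    linarith
  · refine le_trans ?_ (le_max_right _ _)
    linarith
  · apply mul_le_mul _ a3 h3'.le
    · exact mul_nonneg (h1'.le.trans a1) (h2'.le.trans a2)
    · exact mul_le_mul a1 a2 h2'.le (h1'.le.trans a1)

/-- the check for two lines and any line with `0 < a ≤ e`, `b ≥ B` -/
def chkR (p q : Bd) (e B : ℚ) : Bool :=
  decide (0 < B ∧ 0 < dlo p q ∧ 0 < p.la - e * p.ub / B ∧ 0 < q.la - e * q.ub / B ∧
    max (p.ua - q.la + e * q.ub / B) (q.ua - p.la + e * p.ub / B + dhi p q / B) ^ 2 ≤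
      dlo p q * (q.la - e * q.ub / B) * (p.la - e * p.ub / B))

theorem ok_chkR {p q : Bd} {a₁ b₁ a₂ b₂ a b : ℝ} {e B : ℚ} (hp : Inb p a₁ b₁)
    (hq : Inb q a₂ b₂) (ha : 0 < a) (ha' : a ≤ e) (hb : (B : ℝ) ≤ b)
    (h : chkR p q e B = true) : Ok (a₁, b₁, 1) (a₂, b₂, 1) (a, b, 1) := by
  have h' := of_decide_eq_true h
  obtain ⟨h0, h1, h2, h3, h4⟩ := h'
  have h0' : (0 : ℝ) < B := by exact_mod_cast h0
  have h1' : (0 : ℝ) < dlo p q := by exact_mod_cast h1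
  have h2' : (0 : ℝ) < (p.la : ℝ) - e * p.ub / B := by exact_mod_cast h2
  have h3' : (0 : ℝ) < (q.la : ℝ) - e * q.ub / B := by exact_mod_cast h3
  have h4' : (max ((p.ua : ℝ) - q.la + e * q.ub / B)
      ((q.ua : ℝ) - p.la + e * p.ub / B + dhi p q / B)) ^ 2 ≤
      (dlo p q : ℝ) * ((q.la : ℝ) - e * q.ub / B) * ((p.la : ℝ) - e * p.ub / B) := by
    exact_mod_cast h4
  have pb : 0 < b := h0'.trans_le hb
  have he : (0 : ℝ) < e := ha.trans_le ha'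
  have d1 := dlo_le hp hq
  have d2 := le_dhi hp hq
  have pu : (0 : ℝ) < p.ub := hp.pb.trans_le (hp.hb.trans hp.hb')
  have qu : (0 : ℝ) < q.ub := hq.pb.trans_le (hq.hb.trans hq.hb')
  have pb1 : 0 < b₁ := hp.pb.trans_le hp.hb
  have pb2 : 0 < b₂ := hq.pb.trans_le hq.hb
  have pa1 : 0 < a₁ := hp.pa.trans_le hp.ha
  have pa2 : 0 < a₂ := hq.pa.trans_le hq.ha
  -- scaled bounds
  have key : ∀ x : ℝ, 0 ≤ x → x ≤ x / B * b := by
    intro x hx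
    rw [div_mul_eq_mul_div, le_div_iff₀ h0']
    exact mul_le_mul_of_nonneg_left hb hx
  have k1 : a * b₁ ≤ e * p.ub / B * b := by
    refine le_trans ?_ (key _ (mul_nonneg he.le pu.le))
    exact mul_le_mul ha' hp.hb' pb1.le he.le
  have k2 : a * b₂ ≤ e * q.ub / B * b := by
    refine le_trans ?_ (key _ (mul_nonneg he.le qu.le))
    exact mul_le_mul ha' hq.hb' pb2.le he.le
  have hD : 0 < a₁ * b₂ - a₂ * b₁ := h1'.trans_le d1
  have k3 : a₁ * b₂ - a₂ * b₁ ≤ dhi p q / B * b := by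
    refine le_trans d2 (key _ ?_)
    linarith
  have m1 : a₁ * b ≤ p.ua * b := mul_le_mul_of_nonneg_right hp.ha' pb.le
  have m2 : (q.la : ℝ) * b ≤ a₂ * b := mul_le_mul_of_nonneg_right hq.ha pb.le
  have m3 : a₂ * b ≤ q.ua * b := mul_le_mul_of_nonneg_right hq.ha' pb.le
  have m4 : (p.la : ℝ) * b ≤ a₁ * b := mul_le_mul_of_nonneg_right hp.ha pb.le
  have n1 : 0 < a * b₁ := mul_pos ha pb1
  have n2 : 0 < a * b₂ := mul_pos ha pb2
  apply ok_of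
  set m := max ((p.ua : ℝ) - q.la + e * q.ub / B)
      ((q.ua : ℝ) - p.la + e * p.ub / B + dhi p q / B) with hm
  have l1 : (p.ua : ℝ) - q.la + e * q.ub / B ≤ m := le_max_left _ _
  have l2 : (q.ua : ℝ) - p.la + e * p.ub / B + dhi p q / B ≤ m := le_max_right _ _
  have l1' := mul_le_mul_of_nonneg_right l1 pb.le
  have l2' := mul_le_mul_of_nonneg_right l2 pb.le
  have D23 : ((q.la : ℝ) - e * q.ub / B) * b ≤ a₂ * b - a * b₂ := by
    rw [sub_mul]; linarith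
  have D13 : ((p.la : ℝ) - e * p.ub / B) * b ≤ a₁ * b - a * b₁ := by
    rw [sub_mul]; linarith
  have z1 : (a₂ * b - a * b₂) - (a₁ * b - a * b₁) + (a₁ * b₂ - a₂ * b₁) ≤ m * b := by
    refine le_trans ?_ l2'
    rw [add_mul, add_mul, sub_mul]
    linarith
  have z2 : -((a₂ * b - a * b₂) - (a₁ * b - a * b₁) + (a₁ * b₂ - a₂ * b₁)) ≤ m * b := by
    refine le_trans ?_ l1'
    rw [add_mul, sub_mul]
    linarith
  refine le_trans (sq_le_of z1 z2) ?_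
  rw [mul_pow]
  have s1 := mul_le_mul_of_nonneg_right h4' (sq_nonneg b)
  refine le_trans s1 ?_
  have s2 : (dlo p q : ℝ) * ((q.la : ℝ) - e * q.ub / B) * ((p.la : ℝ) - e * p.ub / B) * b ^ 2 =
      (dlo p q : ℝ) * (((q.la : ℝ) - e * q.ub / B) * b) * (((p.la : ℝ) - e * p.ub / B) * b) := by
    ring
  rw [s2]
  have t1 : 0 ≤ ((q.la : ℝ) - e * q.ub / B) * b := mul_nonneg h3'.le pb.le
  have t2 : 0 ≤ ((p.la : ℝ) - e * p.ub / B) * b := mul_nonneg h2'.le pb.le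
  apply mul_le_mul _ D13 t2
  · exact mul_nonneg hD.le (t1.trans D23)
  · exact mul_le_mul d1 D23 t1 hD.le

/-- exchange of the coordinates -/
theorem Ok.refl' {a₁ b₁ a₂ b₂ a₃ b₃ : ℝ} (h : Ok (b₁, a₁, 1) (b₂, a₂, 1) (b₃, a₃, 1)) :
    Ok (a₁, b₁, 1) (a₂, b₂, 1) (a₃, b₃, 1) := by
  unfold Ok det3 dd at *
  simp only at *
  have e1 : (1 * (a₂ * b₃ - a₃ * b₂) - 1 * (a₁ * b₃ - a₃ * b₁) + 1 * (a₁ * b₂ - a₂ * b₁)) =
      - (1 * (b₂ * a₃ - b₃ * a₂) - 1 * (b₁ * a₃ - b₃ * a₁) + 1 * (b₁ * a₂ - b₂ * a₁)) := by ring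
  have e2 : (a₁ * b₂ - a₂ * b₁) * (a₂ * b₃ - a₃ * b₂) * (a₁ * b₃ - a₃ * b₁) =
      - ((b₁ * a₂ - b₂ * a₁) * (b₂ * a₃ - b₃ * a₂) * (b₁ * a₃ - b₃ * a₁)) := by ring
  rw [e1, e2, abs_neg, neg_sq]
  exact h

/-- bounds with exchanged coordinates -/
def Bd.sw (p : Bd) : Bd := ⟨p.lb, p.ub, p.la, p.ua⟩

theorem Inb.sw {p : Bd} {a b : ℝ} (h : Inb p a b) : Inb p.sw b a :=
  ⟨h.pb, h.hb, h.hb', h.pa, h.ha, h.ha'⟩

/-- any line with `a ≥ B`, `0 < b ≤ e` to the left of two lines -/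
theorem ok_chkL {p q : Bd} {a₁ b₁ a₂ b₂ a b : ℝ} {e B : ℚ} (hp : Inb p a₁ b₁)
    (hq : Inb q a₂ b₂) (hb : 0 < b) (hb' : b ≤ e) (ha : (B : ℝ) ≤ a)
    (h : chkR q.sw p.sw e B = true) : Ok (a, b, 1) (a₁, b₁, 1) (a₂, b₂, 1) := by
  apply Ok.refl'
  exact (ok_chkR hq.sw hp.sw hb hb' ha h).swap12.swap23.swap12

/-- the check for the axis `y = 0` (and, with exchanged coordinates, `x = 0`) -/
def chkX (p q : Bd) : Bool :=
  decide (0 < dlo p q ∧ max (p.ua - q.la) (q.ua - p.la) ^ 2 ≤ p.la * q.la * dlo p q)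

theorem ok_chkX {p q : Bd} {a₁ b₁ a₂ b₂ : ℝ} (hp : Inb p a₁ b₁) (hq : Inb q a₂ b₂)
    (h : chkX p q = true) : Ok (0, 1, 0) (a₁, b₁, 1) (a₂, b₂, 1) := by
  have h' := of_decide_eq_true h
  obtain ⟨h1, h2⟩ := h'
  have h1' : (0 : ℝ) < dlo p q := by exact_mod_cast h1
  have h2' : (max ((p.ua : ℝ) - q.la) ((q.ua : ℝ) - p.la)) ^ 2 ≤ (p.la : ℝ) * q.la * dlo p q := by
    exact_mod_cast h2
  have d1 := dlo_le hp hq
  have pa1 : 0 < a₁ := hp.pa.trans_le hp.ha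
  have pa2 : 0 < a₂ := hq.pa.trans_le hq.ha
  have ha1 := hp.ha
  have ha1' := hp.ha'
  have ha2 := hq.ha
  have ha2' := hq.ha'
  unfold Ok det3 dd
  refine le_trans ?_ (le_abs_self _)
  simp only [zero_mul, one_mul, mul_one, zero_sub]
  have e1 : (0 - -a₂ + -a₁) ^ 2 ≤ (max ((p.ua : ℝ) - q.la) ((q.ua : ℝ) - p.la)) ^ 2 := by
    apply sq_le_of
    · refine le_trans ?_ (le_max_right _ _)
      linarith
    · refine le_trans ?_ (le_max_left _ _)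
      linarith
  have e2 : (p.la : ℝ) * q.la * dlo p q ≤ a₁ * a₂ * (a₁ * b₂ - a₂ * b₁) := by
    apply mul_le_mul _ d1 h1'.le
    · positivity
    · exact mul_le_mul ha1 ha2 hq.pa.le pa1.le
  nlinarith

theorem ok_chkY {p q : Bd} {a₁ b₁ a₂ b₂ : ℝ} (hp : Inb p a₁ b₁) (hq : Inb q a₂ b₂)
    (h : chkX q.sw p.sw = true) : Ok (1, 0, 0) (a₁, b₁, 1) (a₂, b₂, 1) := by
  have := (ok_chkX hq.sw hp.sw h).swap23
  unfold Ok det3 dd at *
  simp only at *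
  have e1 : (0 * (a₁ * b₂ - a₂ * b₁) - 1 * (1 * b₂ - a₂ * 0) + 1 * (1 * b₁ - a₁ * 0)) =
      - (0 * (b₁ * a₂ - b₂ * a₁) - 1 * (0 * a₂ - b₂ * 1) + 1 * (0 * a₁ - b₁ * 1)) := by ring
  have e2 : (1 * b₁ - a₁ * 0) * (a₁ * b₂ - a₂ * b₁) * (1 * b₂ - a₂ * 0) =
      - ((0 * a₁ - b₁ * 1) * (b₁ * a₂ - b₂ * a₁) * (0 * a₂ - b₂ * 1)) := by ring
  rw [e1, e2, abs_neg, neg_sq]
  exact this

end MaxTri
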