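import Pool.Agent.Lib.MP_27bb56_co_TRI.Geo

/-! # from a family of lines to a lower bound for `M` -/

set_option autoImplicit false

namespace MaxTri

open Classical in
theorem numMax_le (L : Finset (Set (ℝ × ℝ))) : numMax L ≤ L.card.choose 3 := by
  unfold numMax
  refine le_trans (Finset.card_filter_le _ _) ?_
  rw [Finset.card_powersetCard]

theorem M_bdd (n : ℕ) : BddAbove {m : ℕ | ∃ L : Finset (Set (ℝ × ℝ)), (∀ l ∈ L, IsLine l) ∧
    L.card = n ∧ (∃ T ∈ L.powersetCard 3, ∃ s, TriArea T s) ∧ numMax L = m} := by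
  refine ⟨n.choose 3, ?_⟩
  rintro m ⟨L, -, rfl, -, rfl⟩
  exact numMax_le L

theorem ok_perm {f : ℕ → ℝ × ℝ × ℝ} (hok : ∀ i j k, i < j → j < k → Ok (f i) (f j) (f k))
    {i j k : ℕ} (hij : i ≠ j) (hjk : j ≠ k) (hik : i ≠ k) : Ok (f i) (f j) (f k) := by
  rcases lt_or_gt_of_ne hij with h1 | h1 <;> rcases lt_or_gt_of_ne hjk with h2 | h2 <;>
    rcases lt_or_gt_of_ne hik with h3 | h3
  · exact hok _ _ _ h1 h2
  · omega
  · exact (hok _ _ _ h3 h2).swap23
  · exact (hok _ _ _ h3 h1).swap12.swap23
  · exact (hok _ _ _ h1 h3).swap12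
  · exact (hok _ _ _ h2 h3).swap23.swap12
  · omega
  · exact (hok _ _ _ h2 h1).swap12.swap23.swap12

open Classical in
theorem M_ge {f : ℕ → ℝ × ℝ × ℝ} (hdd : ∀ i j, i < j → dd (f i) (f j) ≠ 0)
    (hok : ∀ i j k, i < j → j < k → Ok (f i) (f j) (f k)) (n : ℕ)
    (W : Finset (Finset ℕ)) (hne : W.Nonempty)
    (hW : ∀ T ∈ W, ∃ i j k, i < j ∧ j < k ∧ k < n ∧ T = {i, j, k} ∧
      det3 (f i) (f j) (f k) ^ 2 = |dd (f i) (f j) * dd (f j) (f k) * dd (f i) (f k)|) :
    W.card ≤ M n := by
  have hdd' : ∀ i j, i ≠ j → dd (f i) (f j) ≠ 0 := by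
    intro i j hij
    rcases lt_or_gt_of_ne hij with h | h
    · exact hdd _ _ h
    · rw [dd_swap (f j) (f i)]
      exact neg_ne_zero.mpr (hdd _ _ h)
  let F : ℕ → Set (ℝ × ℝ) := fun i => lineOf (f i)
  have hF : Function.Injective F := by
    intro i j hij
    by_contra h
    exact lineOf_ne (hdd' i j h) hij
  set L : Finset (Set (ℝ × ℝ)) := (Finset.range n).image F with hL
  have hcard : L.card = n := by
    rw [hL, Finset.card_image_of_injective _ hF, Finset.card_range]
  have hline : ∀ l ∈ L, IsLine l := by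
    intro l hl
    rw [hL, Finset.mem_image] at hl
    obtain ⟨i, -, rfl⟩ := hl
    apply line_isLine
    by_contra hn
    push Not at hn
    apply hdd' i (i + 1) (by omega)
    unfold dd
    rw [hn.1, hn.2]
    ring
  have hbound : ∀ T' ∈ L.powersetCard 3, ∀ s', TriArea T' s' → s' ≤ 1 / 2 := by
    intro T' hT' s' hs'
    obtain ⟨l₁, l₂, l₃, A, B, C, rfl, hA, hB, hC, hAB, rfl⟩ := hs'
    rw [Finset.mem_powersetCard] at hT'
    obtain ⟨hsub, hc⟩ := hT'
    have m1 : l₁ ∈ L := hsub (by simp)
    have m2 : l₂ ∈ L := hsub (by simp)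
    have m3 : l₃ ∈ L := hsub (by simp)
    obtain ⟨n12, n13, n23⟩ : l₁ ≠ l₂ ∧ l₁ ≠ l₃ ∧ l₂ ≠ l₃ := by
      refine ⟨?_, ?_, ?_⟩
      · rintro rfl
        have : ({l₁, l₁, l₃} : Finset (Set (ℝ × ℝ))).card ≤ 2 := by
          rw [Finset.insert_eq_of_mem (by simp)]
          exact Finset.card_le_two
        omega
      · rintro rfl
        have : ({l₁, l₂, l₁} : Finset (Set (ℝ × ℝ))).card ≤ 2 := by
          rw [Finset.insert_eq_of_mem (by simp)]
          exact Finset.card_le_two
        omega
      · rintro rfl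
        have : ({l₁, l₂, l₂} : Finset (Set (ℝ × ℝ))).card ≤ 2 := by
          rw [show ({l₁, l₂, l₂} : Finset (Set (ℝ × ℝ))) = {l₁, l₂} by simp]
          exact Finset.card_le_two
        omega
    rw [hL, Finset.mem_image] at m1 m2 m3
    obtain ⟨i, -, rfl⟩ := m1
    obtain ⟨j, -, rfl⟩ := m2
    obtain ⟨k, -, rfl⟩ := m3
    have hij : i ≠ j := fun h => n12 (by rw [h])
    have hik : i ≠ k := fun h => n13 (by rw [h])
    have hjk : j ≠ k := fun h => n23 (by rw [h])
    have eA : A = pt (f j) (f k) := by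
      have := inter_eq (hdd' j k hjk)
      have h2 : ({A} : Set (ℝ × ℝ)) = {pt (f j) (f k)} := by rw [← hA, ← this]
      exact Set.singleton_injective h2
    have eB : B = pt (f i) (f k) := by
      have := inter_eq (hdd' i k hik)
      have h2 : ({B} : Set (ℝ × ℝ)) = {pt (f i) (f k)} := by rw [← hB, ← this]
      exact Set.singleton_injective h2
    have eC : C = pt (f i) (f j) := by
      have := inter_eq (hdd' i j hij)
      have h2 : ({C} : Set (ℝ × ℝ)) = {pt (f i) (f j)} := by rw [← hC, ← this]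
      exact Set.singleton_injective h2
    rw [eA, eB, eC, area_eq (hdd' i j hij) (hdd' j k hjk) (hdd' i k hik)]
    have hok' : Ok (f i) (f j) (f k) := ok_perm hok hij hjk hik
    have hpos : 0 < |dd (f i) (f j) * dd (f j) (f k) * dd (f i) (f k)| :=
      abs_pos.mpr (mul_ne_zero (mul_ne_zero (hdd' i j hij) (hdd' j k hjk)) (hdd' i k hik))
    rw [div_le_div_iff₀ (by positivity) (by norm_num)]
    unfold Ok at hok'
    linarith
  have htie : ∀ T ∈ W, T.image F ∈ L.powersetCard 3 ∧ TriArea (T.image F) (1 / 2) := by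
    intro T hT
    obtain ⟨i, j, k, hij, hjk, hkn, rfl, heq⟩ := hW T hT
    have d1 := hdd i j hij
    have d2 := hdd j k hjk
    have d3 := hdd i k (by omega)
    have hpos : 0 < |dd (f i) (f j) * dd (f j) (f k) * dd (f i) (f k)| :=
      abs_pos.mpr (mul_ne_zero (mul_ne_zero d1 d2) d3)
    have hdet : det3 (f i) (f j) (f k) ≠ 0 := by
      intro h
      rw [h] at heq
      rw [← heq] at hpos
      norm_num at hpos
    have him : ({i, j, k} : Finset ℕ).image F = {F i, F j, F k} := by
      simp [Finset.image_insert]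
    constructor
    · rw [Finset.mem_powersetCard]
      constructor
      · rw [hL]
        apply Finset.image_subset_image
        intro x hx
        simp only [Finset.mem_insert, Finset.mem_singleton] at hx
        rw [Finset.mem_range]
        omega
      · rw [Finset.card_image_of_injective _ hF]
        rw [Finset.card_eq_three]
        exact ⟨i, j, k, by omega, by omega, by omega, rfl⟩
    · rw [him]
      have := triArea_of d1 d2 d3 hdet
      rw [heq] at this
      have e : ∀ X : ℝ, 0 < X → X / (2 * X) = 1 / 2 := by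
        intro X hX
        rw [div_eq_div_iff (by positivity) (by norm_num)]
        ring
      rw [e _ hpos] at this
      exact this
  have hnum : W.card ≤ numMax L := by
    have hinj : Function.Injective (fun T : Finset ℕ => T.image F) :=
      Finset.image_injective hF
    rw [← Finset.card_image_of_injective W hinj]
    unfold numMax
    apply Finset.card_le_card
    intro T' hT'
    rw [Finset.mem_image] at hT'
    obtain ⟨T, hT, rfl⟩ := hT'
    obtain ⟨h1, h2⟩ := htie T hT
    rw [Finset.mem_filter]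
    exact ⟨h1, 1 / 2, h2, fun T' hT' s' hs' => hbound T' hT' s' hs'⟩
  refine le_trans hnum ?_
  unfold M
  apply le_csSup (M_bdd n)
  obtain ⟨T, hT⟩ := hne
  obtain ⟨h1, h2⟩ := htie T hT
  exact ⟨L, hline, hcard, ⟨_, h1, _, h2⟩, rfl⟩

end MaxTri
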