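import Mathlib

/-! # MP_27bb56_co: maximum-area triangles in line arrangements, definitions -/

set_option autoImplicit false

namespace MaxTri

/-- a line of the plane -/
def IsLine (l : Set (ℝ × ℝ)) : Prop :=
  ∃ a b c : ℝ, (a ≠ 0 ∨ b ≠ 0) ∧ l = {z : ℝ × ℝ | a * z.1 + b * z.2 = c}

open Classical in
/-- the lines of `T` are three lines which pairwise meet in exactly one point and have no common
point, and the triangle with the three meeting points as vertices has area `s` -/
def TriArea (T : Finset (Set (ℝ × ℝ))) (s : ℝ) : Prop :=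
  ∃ (l₁ l₂ l₃ : Set (ℝ × ℝ)) (A B C : ℝ × ℝ), T = {l₁, l₂, l₃} ∧
    l₂ ∩ l₃ = {A} ∧ l₁ ∩ l₃ = {B} ∧ l₁ ∩ l₂ = {C} ∧ A ≠ B ∧
    s = |(B.1 - A.1) * (C.2 - A.2) - (B.2 - A.2) * (C.1 - A.1)| / 2

open Classical in
/-- the number of triples of lines of `L` whose triangle has the largest area among the triangles
determined by three lines of `L` -/
noncomputable def numMax (L : Finset (Set (ℝ × ℝ))) : ℕ :=
  {T ∈ L.powersetCard 3 | ∃ s, TriArea T s ∧
    ∀ T' ∈ L.powersetCard 3, ∀ s', TriArea T' s' → s' ≤ s}.card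

/-- `M n`: the largest number of maximum-area triangles in an arrangement of `n` lines which
determines at least one triangle -/
noncomputable def M (n : ℕ) : ℕ :=
  sSup {m : ℕ | ∃ L : Finset (Set (ℝ × ℝ)), (∀ l ∈ L, IsLine l) ∧ L.card = n ∧
    (∃ T ∈ L.powersetCard 3, ∃ s, TriArea T s) ∧ numMax L = m}

end MaxTri
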