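import Pool.Agent.Lib.MP_27bb56_co_TRI.Ineq

/-! # the family of lines -/

set_option autoImplicit false

namespace MaxTri

/-- first coefficients in a block -/
noncomputable def al (t : ℕ) : ℝ := if t = 0 then 1 else if t = 1 then g - 1 else g

/-- second coefficients in a block -/
noncomputable def be (t : ℕ) : ℝ := if t = 0 then 1 else if t = 1 then g else g + 1

/-- line number `t` of block `q` -/
noncomputable def ln (t q : ℕ) : ℝ × ℝ × ℝ := (al t * (1 / 8) ^ q, be t * 8 ^ q, 1)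

/-- the family: the two axes, then the blocks -/
noncomputable def fam (i : ℕ) : ℝ × ℝ × ℝ :=
  if i = 0 then (0, 1, 0) else if i = 1 then (1, 0, 0) else ln ((i - 2) % 3) ((i - 2) / 3)

theorem fam_zero : fam 0 = (0, 1, 0) := by simp [fam]

theorem fam_one : fam 1 = (1, 0, 0) := by simp [fam]

theorem fam_add (m : ℕ) : fam (m + 2) = ln (m % 3) (m / 3) := by simp [fam]

theorem al_zero : al 0 = 1 := by simp [al]
theorem al_one : al 1 = g - 1 := by simp [al]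
theorem al_two : al 2 = g := by simp [al]
theorem be_zero : be 0 = 1 := by simp [be]
theorem be_one : be 1 = g := by simp [be]
theorem be_two : be 2 = g + 1 := by simp [be]

theorem al_ge (t : ℕ) : g - 1 ≤ al t := by
  have h3 := g_hi
  have h2 := g_lo
  unfold al; split_ifs <;> linarith

theorem al_le (t : ℕ) : al t ≤ g := by
  have h3 := g_hi
  have h2 := g_lo
  unfold al; split_ifs <;> linarith

theorem al_pos (t : ℕ) : 0 < al t := by
  have := al_ge t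
  have h2 := g_lo
  linarith

theorem be_ge (t : ℕ) : 1 ≤ be t := by
  have h3 := g_hi
  have h2 := g_lo
  unfold be; split_ifs <;> linarith

theorem be_le (t : ℕ) : be t ≤ g + 1 := by
  have h3 := g_hi
  have h2 := g_lo
  unfold be; split_ifs <;> linarith

theorem be_pos (t : ℕ) : 0 < be t := by
  have := be_ge t
  linarith

theorem al_be (t : ℕ) : 1 ≤ al t * be t := by
  have h1 := g_sq
  have h3 := g_hi
  have h2 := g_lo
  unfold al be; split_ifs <;> nlinarith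

theorem rs (q : ℕ) : ((1 / 8 : ℝ)) ^ q * 8 ^ q = 1 := by
  rw [← mul_pow]; norm_num

theorem r_pos (q : ℕ) : (0 : ℝ) < (1 / 8) ^ q := by positivity

theorem s_pos (q : ℕ) : (0 : ℝ) < 8 ^ q := by positivity

theorem r_lt {q q' : ℕ} (h : q < q') : 8 * (1 / 8 : ℝ) ^ q' ≤ (1 / 8) ^ q := by
  have h1 : (1 / 8 : ℝ) ^ q' ≤ (1 / 8) ^ (q + 1) :=
    pow_le_pow_of_le_one (by norm_num) (by norm_num) h
  rw [pow_succ] at h1
  linarith

theorem s_lt {q q' : ℕ} (h : q < q') : 8 * (8 : ℝ) ^ q ≤ 8 ^ q' := by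
  have h1 : (8 : ℝ) ^ (q + 1) ≤ 8 ^ q' := pow_le_pow_right₀ (by norm_num) h
  rw [pow_succ] at h1
  linarith

theorem far_a (t t' : ℕ) {q q' : ℕ} (h : q < q') :
    3 * (al t' * (1 / 8) ^ q') ≤ al t * (1 / 8) ^ q := by
  have h1 := r_lt h
  have p := r_pos q'
  have p' := r_pos q
  have h2 := g_lo
  have h3 := g_hi
  have a1 : al t' * (1 / 8) ^ q' ≤ g * (1 / 8) ^ q' := mul_le_mul_of_nonneg_right (al_le t') p.le
  have a2 : (g - 1) * (1 / 8) ^ q ≤ al t * (1 / 8) ^ q :=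
    mul_le_mul_of_nonneg_right (al_ge t) p'.le
  have a3 : (g - 1) * (8 * (1 / 8 : ℝ) ^ q') ≤ (g - 1) * (1 / 8) ^ q :=
    mul_le_mul_of_nonneg_left h1 (by linarith)
  have a4 : 3 * g * (1 / 8 : ℝ) ^ q' ≤ (g - 1) * 8 * (1 / 8 : ℝ) ^ q' :=
    mul_le_mul_of_nonneg_right (by linarith) p.le
  linarith

theorem far_b (t t' : ℕ) {q q' : ℕ} (h : q < q') :
    3 * (be t * 8 ^ q) ≤ be t' * 8 ^ q' := by
  have h1 := s_lt h
  have p := s_pos q'
  have p' := s_pos q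
  have h2 := g_lo
  have h3 := g_hi
  have a1 : be t * 8 ^ q ≤ (g + 1) * 8 ^ q := mul_le_mul_of_nonneg_right (be_le t) p'.le
  have a2 : 1 * (8 : ℝ) ^ q' ≤ be t' * 8 ^ q' := mul_le_mul_of_nonneg_right (be_ge t') p.le
  have a4 : 3 * (g + 1) * (8 : ℝ) ^ q ≤ 8 * (8 : ℝ) ^ q :=
    mul_le_mul_of_nonneg_right (by linarith) p'.le
  linarith

theorem ab_ge (t q : ℕ) : 1 ≤ al t * (1 / 8) ^ q * (be t * 8 ^ q) := by
  have e : al t * (1 / 8) ^ q * (be t * 8 ^ q) = al t * be t * ((1 / 8) ^ q * 8 ^ q) := by ring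
  rw [e, rs, mul_one]
  exact al_be t

theorem a_pos (t q : ℕ) : 0 < al t * (1 / 8) ^ q := mul_pos (al_pos t) (r_pos q)

theorem b_pos (t q : ℕ) : 0 < be t * 8 ^ q := mul_pos (be_pos t) (s_pos q)

/-- three different blocks -/
theorem okA (t₁ t₂ t₃ : ℕ) {q₁ q₂ q₃ : ℕ} (h : q₁ < q₂) (h' : q₂ < q₃) :
    Ok (ln t₁ q₁) (ln t₂ q₂) (ln t₃ q₃) := by
  have f1 := far_a t₁ t₂ h
  have f2 := far_a t₂ t₃ h'
  have f3 := far_b t₁ t₂ h
  have f4 := far_b t₂ t₃ h'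
  have p1 := a_pos t₁ q₁
  have p2 := a_pos t₂ q₂
  have p3 := a_pos t₃ q₃
  have p4 := b_pos t₁ q₁
  have p5 := b_pos t₂ q₂
  have p6 := b_pos t₃ q₃
  have hab := ab_ge t₂ q₂
  unfold ln
  generalize al t₁ * (1 / 8) ^ q₁ = a₁ at *
  generalize al t₂ * (1 / 8) ^ q₂ = a₂ at *
  generalize al t₃ * (1 / 8) ^ q₃ = a₃ at *
  generalize be t₁ * 8 ^ q₁ = b₁ at *
  generalize be t₂ * 8 ^ q₂ = b₂ at *
  generalize be t₃ * 8 ^ q₃ = b₃ at *
  apply cont <;> try linarith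
  have e1 : 3 * a₂ * b₃ ≤ a₁ * b₃ := mul_le_mul_of_nonneg_right f1 p6.le
  have e2 : a₁ * (3 * b₂) ≤ a₁ * b₃ := mul_le_mul_of_nonneg_left f4 p1.le
  have e3 : 0 < a₁ * b₃ := mul_pos p1 p6
  linarith

/-- coordinates of a line relative to another block -/
theorem ln_rel (t q q' : ℕ) : ln t q' =
    ((al t * (1 / 8) ^ q' * 8 ^ q) * (1 / 8) ^ q, (be t * 8 ^ q' * (1 / 8) ^ q) * 8 ^ q, 1) := by
  have e1 : (al t * (1 / 8) ^ q' * 8 ^ q) * (1 / 8) ^ q =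
      al t * (1 / 8) ^ q' * ((1 / 8) ^ q * 8 ^ q) := by ring
  have e2 : (be t * 8 ^ q' * (1 / 8) ^ q) * 8 ^ q =
      be t * 8 ^ q' * ((1 / 8) ^ q * 8 ^ q) := by ring
  rw [e1, e2, rs, mul_one, mul_one]
  rfl

theorem okB (t₁ t₂ t₃ : ℕ) (ht : t₁ < t₂) (ht' : t₂ < 3) {q q' : ℕ} (h : q < q') :
    Ok (ln t₁ q) (ln t₂ q) (ln t₃ q') := by
  rw [ln_rel t₃ q q']
  have hA : 0 < al t₃ * (1 / 8) ^ q' * 8 ^ q := mul_pos (a_pos _ _) (s_pos _)
  have hA' : 8 * (al t₃ * (1 / 8) ^ q' * 8 ^ q) ≤ g := by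
    have e1 : 8 * (1 / 8 : ℝ) ^ q' * 8 ^ q ≤ 1 := by
      have := mul_le_mul_of_nonneg_right (r_lt h) (s_pos q).le
      rw [rs] at this
      exact this
    have e2 := mul_le_mul_of_nonneg_left e1 (al_pos t₃).le
    have e3 := al_le t₃
    have e4 : 8 * (al t₃ * (1 / 8) ^ q' * 8 ^ q) = al t₃ * (8 * (1 / 8 : ℝ) ^ q' * 8 ^ q) := by
      ring
    rw [e4]
    linarith
  have hB : 8 ≤ be t₃ * 8 ^ q' * (1 / 8) ^ q := by
    have e1 : 8 ≤ (8 : ℝ) ^ q' * (1 / 8) ^ q := by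
      have := mul_le_mul_of_nonneg_right (s_lt h) (r_pos q).le
      rw [mul_assoc, mul_comm ((8 : ℝ) ^ q), rs] at this
      linarith
    have e2 : 1 * 8 ≤ be t₃ * ((8 : ℝ) ^ q' * (1 / 8) ^ q) :=
      mul_le_mul (be_ge t₃) e1 (by norm_num) (be_pos t₃).le
    rw [mul_assoc]
    linarith
  have hc : (t₁ = 0 ∧ t₂ = 1) ∨ (t₁ = 0 ∧ t₂ = 2) ∨ (t₁ = 1 ∧ t₂ = 2) := by omega
  rcases hc with ⟨rfl, rfl⟩ | ⟨rfl, rfl⟩ | ⟨rfl, rfl⟩
  · unfold ln
    rw [al_zero, be_zero, al_one, be_one]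
    exact ok_scale (rs q) (r01 hA hA' hB)
  · unfold ln
    rw [al_zero, be_zero, al_two, be_two]
    exact ok_scale (rs q) (r02 hA hA' hB)
  · unfold ln
    rw [al_one, be_one, al_two, be_two]
    exact ok_scale (rs q) (r12 hA hA' hB)

theorem okC (t₁ t₂ t₃ : ℕ) (ht : t₂ < t₃) (ht' : t₃ < 3) {q q' : ℕ} (h : q < q') :
    Ok (ln t₁ q) (ln t₂ q') (ln t₃ q') := by
  rw [ln_rel t₁ q' q]
  have hB : 0 < be t₁ * 8 ^ q * (1 / 8) ^ q' := mul_pos (b_pos _ _) (r_pos _)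
  have hB' : 8 * (be t₁ * 8 ^ q * (1 / 8) ^ q') ≤ g + 1 := by
    have e1 : 8 * (1 / 8 : ℝ) ^ q' * 8 ^ q ≤ 1 := by
      have := mul_le_mul_of_nonneg_right (r_lt h) (s_pos q).le
      rw [rs] at this
      exact this
    have e2 := mul_le_mul_of_nonneg_left e1 (be_pos t₁).le
    have e3 := be_le t₁
    have e4 : 8 * (be t₁ * 8 ^ q * (1 / 8) ^ q') = be t₁ * (8 * (1 / 8 : ℝ) ^ q' * 8 ^ q) := by
      ring
    rw [e4]
    linarith
  have hA : 8 * (g - 1) ≤ al t₁ * (1 / 8) ^ q * 8 ^ q' := by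
    have e1 : 8 ≤ (1 / 8 : ℝ) ^ q * 8 ^ q' := by
      have := mul_le_mul_of_nonneg_left (s_lt h) (r_pos q).le
      have e : (1 / 8 : ℝ) ^ q * (8 * 8 ^ q) = 8 * ((1 / 8 : ℝ) ^ q * 8 ^ q) := by ring
      rw [e, rs] at this
      linarith
    have h2 := g_lo
    have e2 : (g - 1) * 8 ≤ al t₁ * ((1 / 8 : ℝ) ^ q * 8 ^ q') :=
      mul_le_mul (al_ge t₁) e1 (by norm_num) (al_pos t₁).le
    rw [mul_assoc]
    linarith
  have hc : (t₂ = 0 ∧ t₃ = 1) ∨ (t₂ = 0 ∧ t₃ = 2) ∨ (t₂ = 1 ∧ t₃ = 2) := by omega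
  rcases hc with ⟨rfl, rfl⟩ | ⟨rfl, rfl⟩ | ⟨rfl, rfl⟩
  · unfold ln
    rw [al_zero, be_zero, al_one, be_one]
    exact ok_scale (rs q') (l01 hA hB hB')
  · unfold ln
    rw [al_zero, be_zero, al_two, be_two]
    exact ok_scale (rs q') (l02 hA hB hB')
  · unfold ln
    rw [al_one, be_one, al_two, be_two]
    exact ok_scale (rs q') (l12 hA hB hB')

/-! ### minors in a block -/

theorem dd_scale {a₁ b₁ a₂ b₂ r s c c' : ℝ} (h : r * s = 1) :
    dd (a₁ * r, b₁ * s, c) (a₂ * r, b₂ * s, c') = a₁ * b₂ - a₂ * b₁ := by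
  unfold dd
  simp only
  have : a₁ * r * (b₂ * s) - a₂ * r * (b₁ * s) = (a₁ * b₂ - a₂ * b₁) * (r * s) := by ring
  rw [this, h, mul_one]

theorem dd01 (q : ℕ) : dd (ln 0 q) (ln 1 q) = 1 := by
  unfold ln
  rw [dd_scale (rs q), al_zero, be_zero, al_one, be_one]; ring

theorem dd12 (q : ℕ) : dd (ln 1 q) (ln 2 q) = -1 := by
  unfold ln
  rw [dd_scale (rs q), al_two, be_two, al_one, be_one]
  have := g_sq
  linarith [mul_comm g g, sq g]

theorem dd02 (q : ℕ) : dd (ln 0 q) (ln 2 q) = 1 := by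
  unfold ln
  rw [dd_scale (rs q), al_two, be_two, al_zero, be_zero]; ring

theorem det3_blk (q : ℕ) : det3 (ln 0 q) (ln 1 q) (ln 2 q) = -1 := by
  unfold det3
  rw [dd01, dd12, dd02]
  simp [ln]

theorem dd_far (t t' : ℕ) {q q' : ℕ} (h : q < q') : 0 < dd (ln t q) (ln t' q') := by
  have f1 := far_a t t' h
  have f3 := far_b t t' h
  have p1 := a_pos t q
  have p2 := a_pos t' q'
  have p4 := b_pos t q
  have p5 := b_pos t' q'
  unfold ln dd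
  simp only
  generalize al t * (1 / 8) ^ q = a₁ at *
  generalize al t' * (1 / 8) ^ q' = a₂ at *
  generalize be t * 8 ^ q = b₁ at *
  generalize be t' * 8 ^ q' = b₂ at *
  have : a₂ * b₁ < a₁ * b₂ := mul_lt_mul (by linarith) (by linarith) p4 p1.le
  linarith

/-! ### the axes -/

theorem okX_gen {a₁ b₁ a₂ b₂ : ℝ} (ha₂ : 0 < a₂) (ha₁ : a₂ ≤ a₁) (hb₁ : 0 < b₁) (hb₂ : b₁ ≤ b₂)
    (h : 1 ≤ a₂ * b₂) : Ok (0, 1, 0) (a₁, b₁, 1) (a₂, b₂, 1) := by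
  unfold Ok det3 dd
  refine le_trans ?_ (le_abs_self _)
  simp only [zero_mul, one_mul, mul_one, mul_zero, zero_sub, zero_add]
  have e1 : 0 ≤ a₁ - a₂ := by linarith
  have e2 : a₁ - a₂ ≤ a₂ * (a₁ * b₂ - a₂ * b₁) := by
    have q1 : a₂ * b₁ ≤ a₂ * b₂ := mul_le_mul_of_nonneg_left hb₂ ha₂.le
    have q2 : a₂ * (a₂ * b₁) ≤ a₂ * (a₂ * b₂) := mul_le_mul_of_nonneg_left q1 ha₂.le
    have q3 : 1 * (a₁ - a₂) ≤ a₂ * b₂ * (a₁ - a₂) := mul_le_mul_of_nonneg_right h e1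
    nlinarith
  have e3 : (a₁ - a₂) * (a₁ - a₂) ≤ (a₂ * (a₁ * b₂ - a₂ * b₁)) * a₁ :=
    mul_le_mul e2 (by linarith) e1 (by linarith)
  nlinarith

theorem okY_gen {a₁ b₁ a₂ b₂ : ℝ} (ha₂ : 0 < a₂) (ha₁ : a₂ ≤ a₁) (hb₁ : 0 < b₁) (hb₂ : b₁ ≤ b₂)
    (h : 1 ≤ a₁ * b₁) : Ok (1, 0, 0) (a₁, b₁, 1) (a₂, b₂, 1) := by
  unfold Ok det3 dd
  refine le_trans ?_ (le_abs_self _)
  simp only [zero_mul, one_mul, mul_zero, sub_zero, zero_add]
  have e1 : 0 ≤ b₂ - b₁ := by linarith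
  have e2 : b₂ - b₁ ≤ b₁ * (a₁ * b₂ - a₂ * b₁) := by
    have q1 : a₂ * b₁ ≤ a₁ * b₁ := mul_le_mul_of_nonneg_right ha₁ hb₁.le
    have q2 : b₁ * (a₂ * b₁) ≤ b₁ * (a₁ * b₁) := mul_le_mul_of_nonneg_left q1 hb₁.le
    have q3 : 1 * (b₂ - b₁) ≤ a₁ * b₁ * (b₂ - b₁) := mul_le_mul_of_nonneg_right h e1
    nlinarith
  have e3 : (b₂ - b₁) * (b₂ - b₁) ≤ (b₁ * (a₁ * b₂ - a₂ * b₁)) * b₂ :=
    mul_le_mul e2 (by linarith) e1 (by linarith)
  nlinarith

theorem dX (t q : ℕ) : dd (0, 1, 0) (ln t q) = - (al t * (1 / 8) ^ q) := by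
  unfold dd ln; simp only; ring

theorem dY (t q : ℕ) : dd (1, 0, 0) (ln t q) = be t * 8 ^ q := by
  unfold dd ln; simp only; ring

theorem dXY : dd (0, 1, 0) (1, 0, 0) = -1 := by
  unfold dd; simp only; ring

theorem detX {u v : ℝ × ℝ × ℝ} (hu : u.2.2 = 1) (hv : v.2.2 = 1) :
    det3 (0, 1, 0) u v = v.1 - u.1 := by
  unfold det3 dd
  rw [hu, hv]; simp only; ring

theorem detY {u v : ℝ × ℝ × ℝ} (hu : u.2.2 = 1) (hv : v.2.2 = 1) :
    det3 (1, 0, 0) u v = u.2.1 - v.2.1 := by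
  unfold det3 dd
  rw [hu, hv]; simp only; ring

theorem detXY (t q : ℕ) : det3 (0, 1, 0) (1, 0, 0) (ln t q) = -1 := by
  unfold det3 dd ln; simp only; ring

theorem okXY (t q : ℕ) : Ok (0, 1, 0) (1, 0, 0) (ln t q) := by
  unfold Ok
  rw [detXY, dX, dY, dXY]
  have h := ab_ge t q
  refine le_trans ?_ (le_abs_self _)
  nlinarith

theorem sc (q : ℕ) (x y : ℝ) : (x * (1 / 8) ^ q) * (y * (1 / 8) ^ q) =
    x * y * ((1 / 8) ^ q) ^ 2 := by ring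

theorem okX (t₁ t₂ : ℕ) {q₁ q₂ : ℕ} (h : q₁ < q₂ ∨ (q₁ = q₂ ∧ t₁ < t₂ ∧ t₂ < 3)) :
    Ok (0, 1, 0) (ln t₁ q₁) (ln t₂ q₂) := by
  have hab := ab_ge t₂ q₂
  have p1 := a_pos t₁ q₁
  have p2 := a_pos t₂ q₂
  have p4 := b_pos t₁ q₁
  have p5 := b_pos t₂ q₂
  rcases h with h | ⟨rfl, ht, ht'⟩
  · have f1 := far_a t₁ t₂ h
    have f3 := far_b t₁ t₂ h
    unfold ln
    apply okX_gen <;> linarith
  · have h1 := g_sq
    have h2 := g_lo
    have h3 := g_hi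
    have hr := r_pos q₁
    have hs := s_pos q₁
    have hc : (t₁ = 0 ∧ t₂ = 1) ∨ (t₁ = 0 ∧ t₂ = 2) ∨ (t₁ = 1 ∧ t₂ = 2) := by omega
    rcases hc with ⟨rfl, rfl⟩ | ⟨rfl, rfl⟩ | ⟨rfl, rfl⟩
    · unfold ln at *
      rw [al_zero, be_zero, al_one, be_one] at *
      apply okX_gen
      · nlinarith
      · nlinarith
      · nlinarith
      · nlinarith
      · exact hab
    · unfold Ok
      rw [detX rfl rfl, dX, dX, dd02]
      unfold ln
      rw [al_zero, al_two]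
      simp only
      refine le_trans ?_ (le_abs_self _)
      have e : (g * (1 / 8) ^ q₁ - 1 * (1 / 8) ^ q₁) ^ 2 =
        (g ^ 2 - 2 * g + 1) * ((1 / 8) ^ q₁) ^ 2 := by ring
      have e' : -(1 * (1 / 8) ^ q₁) * 1 * -(g * (1 / 8) ^ q₁) = g * ((1 / 8) ^ q₁) ^ 2 := by ring
      rw [e, e']
      apply mul_le_mul_of_nonneg_right _ (sq_nonneg _)
      linarith
    · unfold Ok
      rw [detX rfl rfl, dX, dX, dd12]
      unfold ln
      rw [al_one, al_two]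
      simp only
      refine le_trans ?_ (neg_le_abs _)
      have e : (g * (1 / 8) ^ q₁ - (g - 1) * (1 / 8) ^ q₁) ^ 2 =
        1 * ((1 / 8) ^ q₁) ^ 2 := by ring
      have e' : - (-((g - 1) * (1 / 8) ^ q₁) * -1 * -(g * (1 / 8) ^ q₁)) =
        ((g - 1) * g) * ((1 / 8) ^ q₁) ^ 2 := by ring
      rw [e, e']
      apply mul_le_mul_of_nonneg_right _ (sq_nonneg _)
      nlinarith

theorem okY (t₁ t₂ : ℕ) {q₁ q₂ : ℕ} (h : q₁ < q₂ ∨ (q₁ = q₂ ∧ t₁ < t₂ ∧ t₂ < 3)) :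
    Ok (1, 0, 0) (ln t₁ q₁) (ln t₂ q₂) := by
  have hab := ab_ge t₁ q₁
  have p1 := a_pos t₁ q₁
  have p2 := a_pos t₂ q₂
  have p4 := b_pos t₁ q₁
  have p5 := b_pos t₂ q₂
  rcases h with h | ⟨rfl, ht, ht'⟩
  · have f1 := far_a t₁ t₂ h
    have f3 := far_b t₁ t₂ h
    unfold ln
    apply okY_gen <;> linarith
  · have h1 := g_sq
    have h2 := g_lo
    have h3 := g_hi
    have hr := r_pos q₁
    have hs := s_pos q₁
    have hc : (t₁ = 0 ∧ t₂ = 1) ∨ (t₁ = 0 ∧ t₂ = 2) ∨ (t₁ = 1 ∧ t₂ = 2) := by omega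
    rcases hc with ⟨rfl, rfl⟩ | ⟨rfl, rfl⟩ | ⟨rfl, rfl⟩
    · unfold ln at *
      rw [al_zero, be_zero, al_one, be_one] at *
      apply okY_gen
      · nlinarith
      · nlinarith
      · nlinarith
      · nlinarith
      · exact hab
    · unfold Ok
      rw [detY rfl rfl, dY, dY, dd02]
      unfold ln
      rw [be_zero, be_two]
      simp only
      refine le_trans ?_ (le_abs_self _)
      have e : (1 * 8 ^ q₁ - (g + 1) * (8 : ℝ) ^ q₁) ^ 2 = g ^ 2 * (8 ^ q₁) ^ 2 := by ring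
      have e' : (1 * (8 : ℝ) ^ q₁) * 1 * ((g + 1) * 8 ^ q₁) = (g + 1) * (8 ^ q₁) ^ 2 := by ring
      rw [e, e', h1]
    · unfold Ok
      rw [detY rfl rfl, dY, dY, dd12]
      unfold ln
      rw [be_one, be_two]
      simp only
      refine le_trans ?_ (neg_le_abs _)
      have e : (g * 8 ^ q₁ - (g + 1) * (8 : ℝ) ^ q₁) ^ 2 = 1 * (8 ^ q₁) ^ 2 := by ring
      have e' : - ((g * (8 : ℝ) ^ q₁) * -1 * ((g + 1) * 8 ^ q₁)) =
        (g * (g + 1)) * (8 ^ q₁) ^ 2 := by ring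
      rw [e, e']
      apply mul_le_mul_of_nonneg_right _ (sq_nonneg _)
      nlinarith

theorem okD (q : ℕ) : Ok (ln 0 q) (ln 1 q) (ln 2 q) := by
  unfold Ok
  rw [det3_blk, dd01, dd12, dd02]
  norm_num

/-- every triangle has area at most `1 / 2` -/
theorem ok_lt {i j k : ℕ} (hij : i < j) (hjk : j < k) : Ok (fam i) (fam j) (fam k) := by
  obtain ⟨k', rfl⟩ : ∃ k', k = k' + 2 := ⟨k - 2, by omega⟩
  rcases Nat.lt_or_ge j 2 with hj | hj
  · obtain rfl : j = 1 := by omega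
    obtain rfl : i = 0 := by omega
    rw [fam_zero, fam_one, fam_add]
    exact okXY _ _
  · obtain ⟨j', rfl⟩ : ∃ j', j = j' + 2 := ⟨j - 2, by omega⟩
    have hjk' : j' / 3 < k' / 3 ∨ (j' / 3 = k' / 3 ∧ j' % 3 < k' % 3 ∧ k' % 3 < 3) := by omega
    rcases Nat.lt_or_ge i 2 with hi | hi
    · rcases Nat.lt_or_ge i 1 with hi' | hi'
      · obtain rfl : i = 0 := by omega
        rw [fam_zero, fam_add, fam_add]
        exact okX _ _ hjk'
      · obtain rfl : i = 1 := by omega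
        rw [fam_one, fam_add, fam_add]
        exact okY _ _ hjk'
    · obtain ⟨i', rfl⟩ : ∃ i', i = i' + 2 := ⟨i - 2, by omega⟩
      have hij' : i' / 3 < j' / 3 ∨ (i' / 3 = j' / 3 ∧ i' % 3 < j' % 3 ∧ j' % 3 < 3) := by omega
      rw [fam_add, fam_add, fam_add]
      rcases hij' with h | ⟨h, h', h''⟩
      · rcases hjk' with hk | ⟨hk, hk', hk''⟩
        · exact okA _ _ _ h hk
        · rw [← hk]
          exact okC _ _ _ hk' hk'' h
      · rcases hjk' with hk | ⟨hk, hk', hk''⟩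
        · rw [← h]
          exact okB _ _ _ h' h'' (by omega)
        · rw [← hk, ← h]
          have e0 : i' % 3 = 0 := by omega
          have e1 : j' % 3 = 1 := by omega
          have e2 : k' % 3 = 2 := by omega
          rw [e0, e1, e2]
          exact okD _

end MaxTri
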