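import Pool.Agent.Lib.MP_27bb56_co_TRI.Count
import Pool.Agent.Lib.MP_27bb56_co_TRI.Fam

/-! # the lower bound -/

set_option autoImplicit false

namespace MaxTri

theorem fam_dd (i j : ℕ) (hij : i < j) : dd (fam i) (fam j) ≠ 0 := by
  rcases Nat.lt_or_ge j 2 with hj | hj
  · obtain rfl : j = 1 := by omega
    obtain rfl : i = 0 := by omega
    rw [fam_zero, fam_one, dXY]
    norm_num
  · obtain ⟨j', rfl⟩ : ∃ j', j = j' + 2 := ⟨j - 2, by omega⟩
    rcases Nat.lt_or_ge i 2 with hi | hi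
    · rcases Nat.lt_or_ge i 1 with hi' | hi'
      · obtain rfl : i = 0 := by omega
        rw [fam_zero, fam_add, dX]
        exact neg_ne_zero.mpr (a_pos _ _).ne'
      · obtain rfl : i = 1 := by omega
        rw [fam_one, fam_add, dY]
        exact (b_pos _ _).ne'
    · obtain ⟨i', rfl⟩ : ∃ i', i = i' + 2 := ⟨i - 2, by omega⟩
      rw [fam_add, fam_add]
      have hc : i' / 3 < j' / 3 ∨ (i' / 3 = j' / 3 ∧ i' % 3 < j' % 3 ∧ j' % 3 < 3) := by omega
      rcases hc with h | ⟨h, h', h''⟩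
      · exact (dd_far _ _ h).ne'
      · rw [← h]
        have hc : (i' % 3 = 0 ∧ j' % 3 = 1) ∨ (i' % 3 = 0 ∧ j' % 3 = 2) ∨
            (i' % 3 = 1 ∧ j' % 3 = 2) := by omega
        rcases hc with ⟨e, e'⟩ | ⟨e, e'⟩ | ⟨e, e'⟩
        · rw [e, e', dd01]; norm_num
        · rw [e, e', dd02]; norm_num
        · rw [e, e', dd12]; norm_num

/-- the triangle of three members of the family has area `1 / 2` -/
def Tie (i j k : ℕ) : Prop := det3 (fam i) (fam j) (fam k) ^ 2 =
  |dd (fam i) (fam j) * dd (fam j) (fam k) * dd (fam i) (fam k)|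

theorem tieXY {m : ℕ} (h : m % 3 ≠ 2) : Tie 0 1 (m + 2) := by
  unfold Tie
  rw [fam_zero, fam_one, fam_add, detXY, dX, dY, dXY]
  have e : al (m % 3) * be (m % 3) = 1 := by
    have hg := g_sq
    have hc : m % 3 = 0 ∨ m % 3 = 1 := by omega
    rcases hc with h | h
    · rw [h, al_zero, be_zero]; norm_num
    · rw [h, al_one, be_one]; nlinarith
  have e2 : -1 * (be (m % 3) * 8 ^ (m / 3)) * -(al (m % 3) * (1 / 8) ^ (m / 3)) =
      al (m % 3) * be (m % 3) * ((1 / 8) ^ (m / 3) * 8 ^ (m / 3)) := by ring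
  rw [e2, e, rs]
  norm_num

theorem tieX (q : ℕ) : Tie 0 (3 * q + 1 + 2) (3 * q + 2 + 2) := by
  unfold Tie
  rw [fam_zero, fam_add, fam_add]
  have e1 : (3 * q + 1) % 3 = 1 := by omega
  have e2 : (3 * q + 1) / 3 = q := by omega
  have e3 : (3 * q + 2) % 3 = 2 := by omega
  have e4 : (3 * q + 2) / 3 = q := by omega
  rw [e1, e2, e3, e4, detX rfl rfl, dX, dX, dd12]
  unfold ln
  rw [al_one, al_two]
  simp only
  have hg := g_sq
  have f1 : (g * (1 / 8) ^ q - (g - 1) * (1 / 8) ^ q) ^ 2 = ((1 / 8 : ℝ) ^ q) ^ 2 := by ring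
  have f2 : -((g - 1) * (1 / 8) ^ q) * -1 * -(g * (1 / 8) ^ q) = - ((1 / 8 : ℝ) ^ q) ^ 2 := by
    linear_combination (- ((1 / 8 : ℝ) ^ q) ^ 2) * hg
  rw [f1, f2, abs_neg, abs_of_nonneg (sq_nonneg _)]

theorem tieY (q : ℕ) : Tie 1 (3 * q + 2) (3 * q + 2 + 2) := by
  unfold Tie
  rw [fam_one, fam_add, fam_add]
  have e1 : (3 * q) % 3 = 0 := by omega
  have e2 : (3 * q) / 3 = q := by omega
  have e3 : (3 * q + 2) % 3 = 2 := by omega
  have e4 : (3 * q + 2) / 3 = q := by omega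
  rw [e1, e2, e3, e4, detY rfl rfl, dY, dY, dd02]
  unfold ln
  rw [be_zero, be_two]
  simp only
  have hg := g_sq
  have f1 : (1 * 8 ^ q - (g + 1) * (8 : ℝ) ^ q) ^ 2 = (g + 1) * ((8 : ℝ) ^ q) ^ 2 := by
    linear_combination (((8 : ℝ) ^ q) ^ 2) * hg
  have f2 : 1 * (8 : ℝ) ^ q * 1 * ((g + 1) * 8 ^ q) = (g + 1) * ((8 : ℝ) ^ q) ^ 2 := by ring
  rw [f1, f2, abs_of_nonneg]
  have := g_lo
  exact mul_nonneg (by linarith) (sq_nonneg _)

theorem tieB (q : ℕ) : Tie (3 * q + 2) (3 * q + 1 + 2) (3 * q + 2 + 2) := by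
  unfold Tie
  rw [fam_add, fam_add, fam_add]
  have e1 : (3 * q) % 3 = 0 := by omega
  have e2 : (3 * q) / 3 = q := by omega
  have e3 : (3 * q + 2) % 3 = 2 := by omega
  have e4 : (3 * q + 2) / 3 = q := by omega
  have e5 : (3 * q + 1) % 3 = 1 := by omega
  have e6 : (3 * q + 1) / 3 = q := by omega
  rw [e1, e2, e3, e4, e5, e6, det3_blk, dd01, dd12, dd02]
  norm_num

/-- number of ties among the first `N + 2` lines -/
def num : ℕ → ℕ
  | 0 => 0
  | N + 1 => num N + if N % 3 = 2 then 3 else 1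

theorem num_succ (N : ℕ) : num (N + 1) = num N + if N % 3 = 2 then 3 else 1 := rfl

theorem num_three (q : ℕ) : num (3 * q) = 5 * q := by
  induction q with
  | zero => rfl
  | succ q ih =>
    have e : 3 * (q + 1) = 3 * q + 1 + 1 + 1 := by ring
    rw [e, num, num, num, ih]
    have h1 : (3 * q) % 3 = 0 := by omega
    have h2 : (3 * q + 1) % 3 = 1 := by omega
    have h3 : (3 * q + 1 + 1) % 3 = 2 := by omega
    rw [h1, h2, h3]
    norm_num
    ring

theorem num_ge (N : ℕ) : 5 * N ≤ 3 * num N + 4 := by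
  have hN : N = 3 * (N / 3) + N % 3 := (Nat.div_add_mod N 3).symm
  have h1 := num_three (N / 3)
  have hc : N % 3 = 0 ∨ N % 3 = 1 ∨ N % 3 = 2 := by omega
  rcases hc with h | h | h
  · rw [h, add_zero] at hN
    rw [hN, h1]
    omega
  · rw [h] at hN
    rw [hN, num, h1]
    have h2 : (3 * (N / 3)) % 3 = 0 := by omega
    rw [h2]
    norm_num
    omega
  · rw [h] at hN
    have e : 3 * (N / 3) + 2 = 3 * (N / 3) + 1 + 1 := by ring
    rw [hN, e, num, num, h1]
    have h2 : (3 * (N / 3)) % 3 = 0 := by omega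
    have h3 : (3 * (N / 3) + 1) % 3 = 1 := by omega
    rw [h2, h3]
    norm_num
    omega

theorem ties (N : ℕ) : ∃ W : Finset (Finset ℕ), W.card = num N ∧
    ∀ T ∈ W, ∃ i j k, i < j ∧ j < k ∧ k < N + 2 ∧ T = {i, j, k} ∧ Tie i j k := by
  induction N with
  | zero => exact ⟨∅, rfl, by simp⟩
  | succ N ih =>
    obtain ⟨W, hc, hW⟩ := ih
    have hnot : ∀ T ∈ W, N + 2 ∉ T := by
      intro T hT
      obtain ⟨i, j, k, h1, h2, h3, rfl, -⟩ := hW T hT
      simp only [Finset.mem_insert, Finset.mem_singleton]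
      omega
    have hold : ∀ T ∈ W, ∃ i j k, i < j ∧ j < k ∧ k < N + 1 + 2 ∧ T = {i, j, k} ∧ Tie i j k := by
      intro T hT
      obtain ⟨i, j, k, h1, h2, h3, h4, h5⟩ := hW T hT
      exact ⟨i, j, k, h1, h2, by omega, h4, h5⟩
    by_cases hN : N % 3 = 2
    · obtain ⟨q, rfl⟩ : ∃ q, N = 3 * q + 2 := ⟨N / 3, by omega⟩
      let A : Finset ℕ := {0, 3 * q + 1 + 2, 3 * q + 2 + 2}
      let B : Finset ℕ := {1, 3 * q + 2, 3 * q + 2 + 2}
      let C : Finset ℕ := {3 * q + 2, 3 * q + 1 + 2, 3 * q + 2 + 2}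
      have a0 : (0 : ℕ) ∈ A := by simp [A]
      have b0 : (0 : ℕ) ∉ B := by simp [B]
      have c0 : (0 : ℕ) ∉ C := by simp [C]
      have b1 : (1 : ℕ) ∈ B := by simp [B]
      have c1 : (1 : ℕ) ∉ C := by
        simp only [C, Finset.mem_insert, Finset.mem_singleton]
        omega
      have aN : 3 * q + 2 + 2 ∈ A := by simp [A]
      have bN : 3 * q + 2 + 2 ∈ B := by simp [B]
      have cN : 3 * q + 2 + 2 ∈ C := by simp [C]
      have hAB : A ≠ B := fun h => b0 (h ▸ a0)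
      have hAC : A ≠ C := fun h => c0 (h ▸ a0)
      have hBC : B ≠ C := fun h => c1 (h ▸ b1)
      have hA : A ∉ W := fun h => hnot _ h aN
      have hB : B ∉ W := fun h => hnot _ h bN
      have hC : C ∉ W := fun h => hnot _ h cN
      refine ⟨insert A (insert B (insert C W)), ?_, ?_⟩
      · rw [Finset.card_insert_of_notMem, Finset.card_insert_of_notMem,
          Finset.card_insert_of_notMem hC, hc, num_succ (3 * q + 2), if_pos hN]
        · simp only [Finset.mem_insert, not_or]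
          exact ⟨hBC, hB⟩
        · simp only [Finset.mem_insert, not_or]
          exact ⟨hAB, hAC, hA⟩
      · intro T hT
        simp only [Finset.mem_insert] at hT
        rcases hT with rfl | rfl | rfl | hT
        · exact ⟨0, 3 * q + 1 + 2, 3 * q + 2 + 2, by omega, by omega, by omega, rfl, tieX q⟩
        · exact ⟨1, 3 * q + 2, 3 * q + 2 + 2, by omega, by omega, by omega, rfl, tieY q⟩
        · exact ⟨3 * q + 2, 3 * q + 1 + 2, 3 * q + 2 + 2, by omega, by omega, by omega, rfl,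
            tieB q⟩
        · exact hold T hT
    · let A : Finset ℕ := {0, 1, N + 2}
      have aN : N + 2 ∈ A := by simp [A]
      have hA : A ∉ W := fun h => hnot _ h aN
      refine ⟨insert A W, ?_, ?_⟩
      · rw [Finset.card_insert_of_notMem hA, hc, num_succ N, if_neg hN]
      · intro T hT
        simp only [Finset.mem_insert] at hT
        rcases hT with rfl | hT
        · exact ⟨0, 1, N + 2, by omega, by omega, by omega, rfl, tieXY hN⟩
        · exact hold T hT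

theorem lower (n : ℕ) (hn : 3 ≤ n) : 5 * n ≤ 3 * M n + 14 := by
  obtain ⟨N, rfl⟩ : ∃ N, n = N + 2 := ⟨n - 2, by omega⟩
  obtain ⟨W, hc, hW⟩ := ties N
  have h1 := num_ge N
  have hpos : 0 < W.card := by
    rw [hc]
    obtain ⟨K, rfl⟩ : ∃ K, N = K + 1 := ⟨N - 1, by omega⟩
    rw [num]
    split_ifs <;> omega
  have h2 : W.card ≤ M (N + 2) := M_ge fam_dd (fun i j k => ok_lt) (N + 2) W
    (Finset.card_pos.mp hpos) hW
  omega

end MaxTri
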