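import Pool.Agent.Lib.MP_27bb56_co_TRI.Defs

/-! # lines with coefficients, the area formula -/

set_option autoImplicit false

namespace MaxTri

/-- the line `a x + b y = c` -/
def lineOf (t : ℝ × ℝ × ℝ) : Set (ℝ × ℝ) := {z : ℝ × ℝ | t.1 * z.1 + t.2.1 * z.2 = t.2.2}

/-- minor of the directions -/
def dd (t u : ℝ × ℝ × ℝ) : ℝ := t.1 * u.2.1 - u.1 * t.2.1

/-- determinant of three lines -/
def det3 (t u v : ℝ × ℝ × ℝ) : ℝ := t.2.2 * dd u v - u.2.2 * dd t v + v.2.2 * dd t u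

/-- intersection point -/
noncomputable def pt (t u : ℝ × ℝ × ℝ) : ℝ × ℝ :=
  ((t.2.2 * u.2.1 - u.2.2 * t.2.1) / dd t u, (t.1 * u.2.2 - u.1 * t.2.2) / dd t u)

theorem inter_eq {t u : ℝ × ℝ × ℝ} (h : dd t u ≠ 0) : lineOf t ∩ lineOf u = {pt t u} := by
  obtain ⟨a, b, c⟩ := t
  obtain ⟨a', b', c'⟩ := u
  have h' : a * b' - a' * b ≠ 0 := h
  ext ⟨x, y⟩
  simp only [Set.mem_inter_iff, lineOf, Set.mem_ofPred_eq, Set.mem_singleton_iff, pt, dd,
    Prod.mk.injEq]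
  constructor
  · rintro ⟨h1, h2⟩
    constructor
    · rw [eq_div_iff h', ← h1, ← h2]; ring
    · rw [eq_div_iff h', ← h1, ← h2]; ring
  · rintro ⟨rfl, rfl⟩
    constructor
    · rw [← mul_div_assoc, ← mul_div_assoc, ← add_div, div_eq_iff h']; ring
    · rw [← mul_div_assoc, ← mul_div_assoc, ← add_div, div_eq_iff h']; ring

theorem sub_fst {t u v : ℝ × ℝ × ℝ} (h2 : dd u v ≠ 0) (h3 : dd t v ≠ 0) :
    (pt t v).1 - (pt u v).1 = v.2.1 * det3 t u v / (dd t v * dd u v) := by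
  have e : (pt t v).1 - (pt u v).1 = (t.2.2 * v.2.1 - v.2.2 * t.2.1) / dd t v -
      (u.2.2 * v.2.1 - v.2.2 * u.2.1) / dd u v := rfl
  rw [e, div_sub_div _ _ h3 h2]
  congr 1
  unfold det3 dd
  ring

theorem sub_snd {t u v : ℝ × ℝ × ℝ} (h2 : dd u v ≠ 0) (h3 : dd t v ≠ 0) :
    (pt t v).2 - (pt u v).2 = - v.1 * det3 t u v / (dd t v * dd u v) := by
  have e : (pt t v).2 - (pt u v).2 = (t.1 * v.2.2 - v.1 * t.2.2) / dd t v -
      (u.1 * v.2.2 - v.1 * u.2.2) / dd u v := rfl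
  rw [e, div_sub_div _ _ h3 h2]
  congr 1
  unfold det3 dd
  ring

theorem sub_fst' {t u v : ℝ × ℝ × ℝ} (h1 : dd t u ≠ 0) (h2 : dd u v ≠ 0) :
    (pt t u).1 - (pt u v).1 = u.2.1 * det3 t u v / (dd t u * dd u v) := by
  have e : (pt t u).1 - (pt u v).1 = (t.2.2 * u.2.1 - u.2.2 * t.2.1) / dd t u -
      (u.2.2 * v.2.1 - v.2.2 * u.2.1) / dd u v := rfl
  rw [e, div_sub_div _ _ h1 h2]
  congr 1
  unfold det3 dd
  ring

theorem sub_snd' {t u v : ℝ × ℝ × ℝ} (h1 : dd t u ≠ 0) (h2 : dd u v ≠ 0) :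
    (pt t u).2 - (pt u v).2 = - u.1 * det3 t u v / (dd t u * dd u v) := by
  have e : (pt t u).2 - (pt u v).2 = (t.1 * u.2.2 - u.1 * t.2.2) / dd t u -
      (u.1 * v.2.2 - v.1 * u.2.2) / dd u v := rfl
  rw [e, div_sub_div _ _ h1 h2]
  congr 1
  unfold det3 dd
  ring

theorem area_eq {t u v : ℝ × ℝ × ℝ} (h1 : dd t u ≠ 0) (h2 : dd u v ≠ 0) (h3 : dd t v ≠ 0) :
    |((pt t v).1 - (pt u v).1) * ((pt t u).2 - (pt u v).2) -
      ((pt t v).2 - (pt u v).2) * ((pt t u).1 - (pt u v).1)| / 2 =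
      det3 t u v ^ 2 / (2 * |dd t u * dd u v * dd t v|) := by
  have key : ((pt t v).1 - (pt u v).1) * ((pt t u).2 - (pt u v).2) -
      ((pt t v).2 - (pt u v).2) * ((pt t u).1 - (pt u v).1) =
      - (det3 t u v ^ 2 / (dd t u * dd u v * dd t v)) := by
    rw [sub_fst h2 h3, sub_snd h2 h3, sub_fst' h1 h2, sub_snd' h1 h2]
    have e : (v.2.1 * det3 t u v / (dd t v * dd u v)) * (- u.1 * det3 t u v / (dd t u * dd u v)) -
        (- v.1 * det3 t u v / (dd t v * dd u v)) * (u.2.1 * det3 t u v / (dd t u * dd u v)) =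
        - (dd u v * det3 t u v ^ 2 / (dd u v * (dd t u * dd u v * dd t v))) := by
      have e2 : dd u v = u.1 * v.2.1 - v.1 * u.2.1 := rfl
      rw [div_mul_div_comm, div_mul_div_comm, ← sub_div, ← neg_div]
      congr 1
      · rw [e2]; ring
      · ring
    rw [e, mul_div_mul_left _ _ h2]
  rw [key, abs_neg, abs_div, abs_of_nonneg (sq_nonneg _), div_div, mul_comm 2]

theorem pt_ne {t u v : ℝ × ℝ × ℝ} (h1 : dd t u ≠ 0) (h2 : dd u v ≠ 0) (h3 : dd t v ≠ 0)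
    (hd : det3 t u v ≠ 0) : pt u v ≠ pt t v := by
  intro h
  have := area_eq h1 h2 h3
  rw [h] at this
  simp only [sub_self, zero_mul, abs_zero, zero_div] at this
  have hp : 0 < det3 t u v ^ 2 / (2 * |dd t u * dd u v * dd t v|) := by
    apply div_pos
    · positivity
    · have : dd t u * dd u v * dd t v ≠ 0 := mul_ne_zero (mul_ne_zero h1 h2) h3
      positivity
  linarith

open Classical in
theorem triArea_of {t u v : ℝ × ℝ × ℝ} (h1 : dd t u ≠ 0) (h2 : dd u v ≠ 0) (h3 : dd t v ≠ 0)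
    (hd : det3 t u v ≠ 0) :
    TriArea {lineOf t, lineOf u, lineOf v} (det3 t u v ^ 2 / (2 * |dd t u * dd u v * dd t v|)) :=
  ⟨_, _, _, pt u v, pt t v, pt t u, rfl, inter_eq h2, inter_eq h3, inter_eq h1,
    pt_ne h1 h2 h3 hd, (area_eq h1 h2 h3).symm⟩

/-- the inequality `area ≤ 1 / 2` -/
def Ok (t u v : ℝ × ℝ × ℝ) : Prop := det3 t u v ^ 2 ≤ |dd t u * dd u v * dd t v|

theorem dd_swap (t u : ℝ × ℝ × ℝ) : dd u t = - dd t u := by
  unfold dd; ring

theorem Ok.swap12 {t u v : ℝ × ℝ × ℝ} (h : Ok t u v) : Ok u t v := by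
  unfold Ok at *
  have e1 : det3 u t v = - det3 t u v := by
    unfold det3; rw [dd_swap t u]; ring
  have e2 : dd u t * dd t v * dd u v = - (dd t u * dd u v * dd t v) := by
    rw [dd_swap t u]; ring
  rw [e1, e2, abs_neg, neg_sq]
  exact h

theorem Ok.swap23 {t u v : ℝ × ℝ × ℝ} (h : Ok t u v) : Ok t v u := by
  unfold Ok at *
  have e1 : det3 t v u = - det3 t u v := by
    unfold det3; rw [dd_swap u v]; ring
  have e2 : dd t v * dd v u * dd t u = - (dd t u * dd u v * dd t v) := by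
    rw [dd_swap u v]; ring
  rw [e1, e2, abs_neg, neg_sq]
  exact h

theorem line_isLine {t : ℝ × ℝ × ℝ} (h : t.1 ≠ 0 ∨ t.2.1 ≠ 0) : IsLine (lineOf t) :=
  ⟨t.1, t.2.1, t.2.2, h, rfl⟩

theorem lineOf_ne {t u : ℝ × ℝ × ℝ} (h : dd t u ≠ 0) : lineOf t ≠ lineOf u := by
  intro e
  have h1 := inter_eq h
  rw [← e, Set.inter_self] at h1
  -- a line has two points
  obtain ⟨a, b, c⟩ := t
  have hab : a ≠ 0 ∨ b ≠ 0 := by
    by_contra hn
    push Not at hn
    apply h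
    unfold dd
    simp [hn.1, hn.2]
  have hp : pt (a, b, c) u ∈ lineOf (a, b, c) := by rw [h1]; rfl
  have hq : ((pt (a, b, c) u).1 + b, (pt (a, b, c) u).2 - a) ∈ lineOf (a, b, c) := by
    simp only [lineOf, Set.mem_ofPred_eq] at hp ⊢
    linarith
  rw [h1, Set.mem_singleton_iff] at hq
  have e1 := congrArg Prod.fst hq
  have e2 := congrArg Prod.snd hq
  simp only at e1 e2
  rcases hab with ha | hb
  · apply ha; linarith
  · apply hb; linarith

end MaxTri
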