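import Pool.Agent.Lib.MP_27bb56_co_TRI.HalfLines

/-! # all triangles of the family have area at most `1 / 2` -/

set_option autoImplicit false

namespace MaxTri.H

open MaxTri

/-- the six types of triangles of area exactly `1 / 2` without the axes -/
def exc (i j k : ℕ) : Bool :=
  decide ((i, j, k) ∈ [(0, 1, 2), (1, 2, 3), (1, 2, 5), (1, 4, 5), (2, 3, 4), (3, 4, 5)])

theorem near_chk : ∀ i < 4, ∀ j < 12, ∀ k < 20, i < j ∧ j < k ∧ k / 4 ≤ j / 4 + 2 ∧
    exc i j k = false → chk (bm i) (bm j) (bm k) = true := by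
  decide +kernel

theorem right_chk : ∀ i < 4, ∀ j < 12, i < j → ¬ (i = 1 ∧ j = 2) →
    chkR (bm i) (bm j) (161803400 / 10 ^ 8 * (535687387 / 10 ^ 9) ^ (j / 4 + 3))
      ((1866760399 / 10 ^ 9) ^ (j / 4 + 3)) = true := by
  decide +kernel

theorem left_chk : ∀ i < 4, ∀ j < 12, i < j → ¬ (i = 0 ∧ j = 1) →
    chkR (bm j).sw (bm i).sw (261803400 / 10 ^ 8 * (535687387 / 10 ^ 9) ^ 3)
      (61803398 / 10 ^ 8 * (1866760399 / 10 ^ 9) ^ 3) = true := by
  decide +kernel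

theorem x_chk : ∀ i < 4, ∀ j < 12, i < j → ¬ (i = 1 ∧ j = 2) → chkX (bm i) (bm j) = true := by
  decide +kernel

theorem y_chk : ∀ i < 4, ∀ j < 12, i < j → ¬ (i = 0 ∧ j = 1) →
    chkX (bm j).sw (bm i).sw = true := by
  decide +kernel

theorem d_chk : ∀ i < 4, ∀ j < 12, i < j → 0 < dlo (bm i) (bm j) := by
  decide +kernel

theorem TieL.ok {u v w : ℝ × ℝ × ℝ} (h : TieL u v w) : Ok u v w := le_of_eq h

theorem ok_near {i j k : ℕ} (hi : i < 4) (hij : i < j) (hjk : j < k) (hj : j / 4 ≤ 2)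
    (hk : k / 4 ≤ j / 4 + 2) : Ok (gl i) (gl j) (gl k) := by
  rcases Bool.eq_false_or_eq_true (exc i j k) with h | h
  · have h' := of_decide_eq_true h
    simp only [List.mem_cons, List.not_mem_nil, or_false, Prod.mk.injEq] at h'
    rcases h' with ⟨rfl, rfl, rfl⟩ | ⟨rfl, rfl, rfl⟩ | ⟨rfl, rfl, rfl⟩ | ⟨rfl, rfl, rfl⟩ |
      ⟨rfl, rfl, rfl⟩ | ⟨rfl, rfl, rfl⟩
    · exact tie012.ok
    · exact tie123.ok
    · exact tie125.ok
    · exact tie145.ok
    · exact tie234.ok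
    · exact tie345.ok
  · exact ok_chk (inbm i) (inbm j) (inbm k)
      (near_chk i hi j (by omega) k (by omega) ⟨hij, hjk, hk, h⟩)

theorem x_sq : (s ^ 2 - s) ^ 2 = (s ^ 2 - s) + 1 := by
  linear_combination hs

theorem x_lo : 1.6 < s ^ 2 - s := by
  have h1 := s2_lo
  have h2 := s_hi
  norm_num at *
  linarith

theorem x_hi : s ^ 2 - s < 1.62 := by
  have h1 := s2_hi
  have h2 := s_lo
  norm_num at *
  linarith

theorem al_le (t : ℕ) : al t ≤ 161803400 / 10 ^ 8 := by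
  have h1 := s_lo'
  have h2 := s_hi'
  have h3 := s2_lo
  have h4 := s2_hi
  have h5 := s3_lo
  have h6 := s3_hi
  unfold al
  split_ifs
  · norm_num
  · linarith
  · linarith
  · linarith

theorem al_ge (t : ℕ) : 61803398 / 10 ^ 8 ≤ al t := by
  have h1 := s_lo'
  have h2 := s_hi'
  have h3 := s2_lo
  have h4 := s2_hi
  have h5 := s3_lo
  have h6 := s3_hi
  unfold al
  split_ifs
  · norm_num
  · linarith
  · linarith
  · linarith

theorem be_le (t : ℕ) : be t ≤ 261803400 / 10 ^ 8 := by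
  have h1 := s_lo'
  have h2 := s_hi'
  have h3 := s2_lo
  have h4 := s2_hi
  have h5 := s3_lo
  have h6 := s3_hi
  unfold be
  split_ifs
  · norm_num
  · linarith
  · linarith
  · linarith

theorem be_ge (t : ℕ) : 1 ≤ be t := by
  have h1 := s_lo'
  have h2 := s_hi'
  have h3 := s2_lo
  have h4 := s2_hi
  have h5 := s3_lo
  have h6 := s3_hi
  unfold be
  split_ifs
  · norm_num
  · linarith
  · linarith
  · linarith

theorem al_pos (t : ℕ) : 0 < al t := lt_of_lt_of_le (by norm_num) (al_ge t)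

theorem be_pos (t : ℕ) : 0 < be t := lt_of_lt_of_le (by norm_num) (be_ge t)

theorem al_be (t : ℕ) : 1 ≤ al t * be t := by
  have h7 := x_sq
  have h8 := x_lo
  have i0 := inb0 3
  have e3 : 1 ≤ al 3 * be 3 := by
    have a1 : (78 / 100 : ℝ) ≤ al 3 := by
      refine le_trans ?_ i0.ha
      simp only [bd0]
      norm_num
    have a2 : (2 : ℝ) ≤ be 3 := by
      refine le_trans ?_ i0.hb
      simp only [bd0]
      norm_num
    nlinarith
  rcases Nat.lt_or_ge t 3 with h | h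
  · have hc : t = 0 ∨ t = 1 ∨ t = 2 := by omega
    rcases hc with rfl | rfl | rfl
    · rw [al_0, be_0]; norm_num
    · rw [al_1, be_1]; nlinarith
    · rw [al_2, be_2]; nlinarith
  · have e1 : al t = al 3 := by
      unfold al
      simp only [show t ≠ 0 by omega, show t ≠ 1 by omega, show t ≠ 2 by omega, if_false]
      norm_num
    have e2 : be t = be 3 := by
      unfold be
      simp only [show t ≠ 0 by omega, show t ≠ 1 by omega, show t ≠ 2 by omega, if_false]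
      norm_num
    rw [e1, e2]
    exact e3

theorem ga_pos (m : ℕ) : 0 < (gl m).1 := mul_pos (al_pos _) (pow_pos r_pos _)

theorem gb_pos (m : ℕ) : 0 < (gl m).2.1 := mul_pos (be_pos _) (pow_pos s_pos _)

theorem gab (m : ℕ) : 1 ≤ (gl m).1 * (gl m).2.1 := by
  have e : (gl m).1 * (gl m).2.1 = al (m % 4) * be (m % 4) * (r ^ (m / 4) * s ^ (m / 4)) := by
    unfold gl
    simp only
    ring
  rw [e, rs, mul_one]
  exact al_be _

theorem r_le_one : r ≤ 1 := r_hi.trans (by norm_num)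

theorem one_le_s : 1 ≤ s := le_trans (by norm_num) s_lo

theorem r_pow_le {m n : ℕ} (h : m ≤ n) : r ^ n ≤ r ^ m := pow_le_pow_of_le_one r_pos.le r_le_one h

theorem s_pow_le {m n : ℕ} (h : m ≤ n) : s ^ m ≤ s ^ n := pow_le_pow_right₀ one_le_s h

theorem r3 : r ^ 3 ≤ 1538 / 10000 := by
  have h : r ^ 3 ≤ (535687387 / 10 ^ 9 : ℝ) ^ 3 := pow_le_pow_left₀ r_pos.le r_hi 3
  refine le_trans h ?_
  norm_num

theorem far_a {m n : ℕ} (h : m / 4 + 3 ≤ n / 4) : (gl n).1 ≤ 42 / 100 * (gl m).1 := by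
  have e1 : (gl n).1 = al (n % 4) * r ^ (n / 4) := rfl
  have e2 : (gl m).1 = al (m % 4) * r ^ (m / 4) := rfl
  have h1 : r ^ (n / 4) ≤ r ^ (m / 4) * (1538 / 10000) := by
    refine le_trans (r_pow_le h) ?_
    rw [pow_add]
    exact mul_le_mul_of_nonneg_left r3 (pow_pos r_pos _).le
  have h2 := al_le (n % 4)
  have h3 := al_ge (m % 4)
  have p := pow_pos r_pos (m / 4)
  have p' := pow_pos r_pos (n / 4)
  rw [e1, e2]
  have q1 : al (n % 4) * r ^ (n / 4) ≤ 161803400 / 10 ^ 8 * (r ^ (m / 4) * (1538 / 10000)) :=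
    mul_le_mul h2 h1 p'.le (by norm_num)
  have q2 : 61803398 / 10 ^ 8 * r ^ (m / 4) ≤ al (m % 4) * r ^ (m / 4) :=
    mul_le_mul_of_nonneg_right h3 p.le
  nlinarith

theorem far_b {m n : ℕ} (h : m / 4 + 3 ≤ n / 4) : (gl m).2.1 ≤ 42 / 100 * (gl n).2.1 := by
  have e1 : (gl n).2.1 = be (n % 4) * s ^ (n / 4) := rfl
  have e2 : (gl m).2.1 = be (m % 4) * s ^ (m / 4) := rfl
  have h3' := s3_lo
  have h1 : s ^ (m / 4) * 6.5 ≤ s ^ (n / 4) := by
    refine le_trans ?_ (s_pow_le h)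
    rw [pow_add]
    apply mul_le_mul_of_nonneg_left _ (pow_pos s_pos _).le
    norm_num at *
    linarith
  have h2 := be_le (m % 4)
  have h3 := be_ge (n % 4)
  have p := pow_pos s_pos (m / 4)
  have p' := pow_pos s_pos (n / 4)
  rw [e1, e2]
  have q1 : be (m % 4) * s ^ (m / 4) ≤ 261803400 / 10 ^ 8 * s ^ (m / 4) :=
    mul_le_mul_of_nonneg_right h2 p.le
  have q2 : 1 * s ^ (n / 4) ≤ be (n % 4) * s ^ (n / 4) := mul_le_mul_of_nonneg_right h3 p'.le
  nlinarith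

theorem ok_far {i j k : ℕ} (h : i / 4 + 3 ≤ j / 4) (h' : j / 4 + 3 ≤ k / 4) :
    Ok (gl i) (gl j) (gl k) := by
  have f1 := far_a h
  have f2 := far_a h'
  have f3 := far_b h
  have f4 := far_b h'
  have p1 := ga_pos i
  have p2 := ga_pos j
  have p3 := ga_pos k
  have p4 := gb_pos i
  have p5 := gb_pos j
  have p6 := gb_pos k
  have hab := gab j
  have key : Ok ((gl i).1, (gl i).2.1, 1) ((gl j).1, (gl j).2.1, 1) ((gl k).1, (gl k).2.1, 1) := by
    apply cont p3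
    · linarith
    · linarith
    · exact p4
    · linarith
    · linarith
    · exact hab
    · have q1 : (gl j).1 * (gl k).2.1 ≤ 42 / 100 * (gl i).1 * (gl k).2.1 :=
        mul_le_mul_of_nonneg_right f1 p6.le
      have q2 : (gl i).1 * (gl j).2.1 ≤ (gl i).1 * (42 / 100 * (gl k).2.1) :=
        mul_le_mul_of_nonneg_left f4 p1.le
      have q3 : 0 < (gl i).1 * (gl k).2.1 := mul_pos p1 p6
      linarith
  exact key

theorem r12' {x a b : ℝ} (h1 : x ^ 2 = x + 1) (h2 : 1.6 < x) (h3 : x < 1.62) (ha : 0 < a)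
    (ha' : a ≤ 1 / 4) (hb : 6 ≤ b) : Ok (x, x + 1, 1) (x - 1, x, 1) (a, b, 1) := by
  apply ok_of
  have e1 : x * x - (x - 1) * (x + 1) = 1 := by ring
  have e2 : (((x - 1) * b - a * x) - (x * b - a * (x + 1)) + (x * x - (x - 1) * (x + 1))) =
      - (b - a - 1) := by rw [e1]; ring
  rw [e2, e1, neg_sq]
  have e3 : 1 * ((x - 1) * b - a * x) * (x * b - a * (x + 1)) - (b - a - 1) ^ 2 =
      2 * x * a ^ 2 - (2 * x - 1) * a * b + 2 * b - 2 * a - 1 := by
    linear_combination (b ^ 2 + a ^ 2 - 2 * a * b) * h1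
  have e4 : 0 ≤ 2 * x * a ^ 2 - (2 * x - 1) * a * b + 2 * b - 2 * a - 1 := by
    have q1 : (2 * x - 1) * a ≤ 0.56 := by nlinarith
    have q2 : (2 * x - 1) * a * b ≤ 0.56 * b := mul_le_mul_of_nonneg_right q1 (by linarith)
    have q3 : 0 ≤ 2 * x * a ^ 2 := mul_nonneg (by linarith) (sq_nonneg _)
    nlinarith
  linarith

theorem l02' {x a b : ℝ} (h1 : x ^ 2 = x + 1) (h2 : 1.6 < x) (h3 : x < 1.62) (ha : 4 ≤ a)
    (hb : 0 < b) (hb' : b ≤ 0.41) : Ok (a, b, 1) (1, 1, 1) (x, x + 1, 1) := by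
  apply ok_of
  have e1 : (1 : ℝ) * (x + 1) - x * 1 = 1 := by ring
  rw [e1]
  have e3 : (a * 1 - 1 * b) * 1 * (a * (x + 1) - x * b) -
      (1 - (a * (x + 1) - x * b) + (a * 1 - 1 * b)) ^ 2 =
      - (2 * x - 1) * a * b + (2 * x - 2) * b ^ 2 - 1 + 2 * x * a - 2 * (x - 1) * b := by
    linear_combination (- a ^ 2 + 2 * a * b - b ^ 2) * h1
  have e4 : 0 ≤ - (2 * x - 1) * a * b + (2 * x - 2) * b ^ 2 - 1 + 2 * x * a - 2 * (x - 1) * b := by
    have q1 : (2 * x - 1) * b ≤ 1 := by nlinarith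
    have q2 : (2 * x - 1) * b * a ≤ 1 * a := mul_le_mul_of_nonneg_right q1 (by linarith)
    have q4 : 0 ≤ (2 * x - 2) * b ^ 2 := mul_nonneg (by linarith) (sq_nonneg _)
    have q5 : 3.2 * a ≤ 2 * x * a := by nlinarith
    have q6 : 2 * (x - 1) * b ≤ 1 := by nlinarith
    nlinarith
  linarith

theorem ok_right {i j k : ℕ} (hi : i < 4) (hij : i < j) (hj : j / 4 ≤ 2)
    (hk : j / 4 + 3 ≤ k / 4) : Ok (gl i) (gl j) (gl k) := by
  by_cases hc : i = 1 ∧ j = 2
  · obtain ⟨rfl, rfl⟩ := hc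
    rw [g1, g2]
    have key : Ok (s ^ 2 - s, s ^ 2 - s + 1, 1) (s ^ 2 - s - 1, s ^ 2 - s, 1)
        ((gl k).1, (gl k).2.1, 1) := by
      apply r12' x_sq x_lo x_hi (ga_pos k)
      · have h1 : (gl k).1 = al (k % 4) * r ^ (k / 4) := rfl
        have h2 : r ^ (k / 4) ≤ r ^ 3 := r_pow_le (by omega)
        have h3 := r3
        have h4 := al_le (k % 4)
        rw [h1]
        have : al (k % 4) * r ^ (k / 4) ≤ 161803400 / 10 ^ 8 * (1538 / 10000) :=
          mul_le_mul h4 (h2.trans h3) (pow_pos r_pos _).le (by norm_num)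
        refine le_trans this ?_
        norm_num
      · have h1 : (gl k).2.1 = be (k % 4) * s ^ (k / 4) := rfl
        have h2 : s ^ 3 ≤ s ^ (k / 4) := s_pow_le (by omega)
        have h3 := s3_lo
        have h4 := be_ge (k % 4)
        rw [h1]
        have : 1 * s ^ (k / 4) ≤ be (k % 4) * s ^ (k / 4) :=
          mul_le_mul_of_nonneg_right h4 (pow_pos s_pos _).le
        refine le_trans ?_ this
        rw [one_mul]
        refine le_trans ?_ h2
        refine le_trans ?_ h3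
        norm_num
    exact key
  · have hB : ((((1866760399 / 10 ^ 9) ^ (j / 4 + 3) : ℚ)) : ℝ) ≤ (gl k).2.1 := by
      have h1 : (gl k).2.1 = be (k % 4) * s ^ (k / 4) := rfl
      have h2 : s ^ (j / 4 + 3) ≤ s ^ (k / 4) := s_pow_le hk
      have h4 := be_ge (k % 4)
      have h5 : (1866760399 / 10 ^ 9 : ℝ) ^ (j / 4 + 3) ≤ s ^ (j / 4 + 3) :=
        pow_le_pow_left₀ (by norm_num) s_lo _
      rw [h1]
      push_cast
      have : 1 * s ^ (k / 4) ≤ be (k % 4) * s ^ (k / 4) :=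
        mul_le_mul_of_nonneg_right h4 (pow_pos s_pos _).le
      linarith
    have hA : (gl k).1 ≤
        (((161803400 / 10 ^ 8 * (535687387 / 10 ^ 9) ^ (j / 4 + 3) : ℚ)) : ℝ) := by
      have h1 : (gl k).1 = al (k % 4) * r ^ (k / 4) := rfl
      have h2 : r ^ (k / 4) ≤ r ^ (j / 4 + 3) := r_pow_le hk
      have h3 : r ^ (j / 4 + 3) ≤ (535687387 / 10 ^ 9 : ℝ) ^ (j / 4 + 3) :=
        pow_le_pow_left₀ r_pos.le r_hi _
      rw [h1]
      push_cast
      exact mul_le_mul (al_le _) (h2.trans h3) (pow_pos r_pos _).le (by norm_num)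
    exact ok_chkR (inbm i) (inbm j) (ga_pos k) hA hB (right_chk i hi j (by omega) hij hc)

theorem ok_left {m j k : ℕ} (q : ℕ) (hj : j < 4) (hjk : j < k) (hk : k / 4 ≤ 2)
    (hm : m / 4 + 3 ≤ q) : Ok (gl m) (gl (4 * q + j)) (gl (4 * q + k)) := by
  obtain ⟨d, rfl⟩ : ∃ d, q = m / 4 + d := ⟨q - m / 4, by omega⟩
  have hd : 3 ≤ d := by omega
  have e : gl m = ((al (m % 4) * s ^ d) * r ^ (m / 4 + d), (be (m % 4) * r ^ d) * s ^ (m / 4 + d),
      1) := by
    unfold gl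
    have e1 : al (m % 4) * s ^ d * r ^ (m / 4 + d) = al (m % 4) * r ^ (m / 4) * (r ^ d * s ^ d) := by
      rw [pow_add]; ring
    have e2 : be (m % 4) * r ^ d * s ^ (m / 4 + d) = be (m % 4) * s ^ (m / 4) * (r ^ d * s ^ d) := by
      rw [pow_add]; ring
    rw [e1, e2, rs, mul_one, mul_one]
  rw [e, gl_add, gl_add]
  apply ok_scale (rs _)
  have hB : 0 < be (m % 4) * r ^ d := mul_pos (be_pos _) (pow_pos r_pos _)
  have hs3 : s ^ 3 ≤ s ^ d := s_pow_le hd
  have hr3 : r ^ d ≤ r ^ 3 := r_pow_le hd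
  by_cases hc : j = 0 ∧ k = 1
  · obtain ⟨rfl, rfl⟩ := hc
    rw [g0, g1]
    apply l02' x_sq x_lo x_hi _ hB
    · have h3 := r3
      have : be (m % 4) * r ^ d ≤ 261803400 / 10 ^ 8 * (1538 / 10000) :=
        mul_le_mul (be_le _) (hr3.trans h3) (pow_pos r_pos _).le (by norm_num)
      refine le_trans this ?_
      norm_num
    · have h3 := s3_lo
      have : 61803398 / 10 ^ 8 * (65052761626 / 10 ^ 10) ≤ al (m % 4) * s ^ d :=
        mul_le_mul (al_ge _) (h3.trans hs3) (by norm_num) (al_pos _).le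
      refine le_trans ?_ this
      norm_num
  · have hA : (((61803398 / 10 ^ 8 * (1866760399 / 10 ^ 9) ^ 3 : ℚ)) : ℝ) ≤
        al (m % 4) * s ^ d := by
      have h5 : (1866760399 / 10 ^ 9 : ℝ) ^ 3 ≤ s ^ 3 := pow_le_pow_left₀ (by norm_num) s_lo _
      push_cast
      exact mul_le_mul (al_ge _) (h5.trans hs3) (by positivity) (al_pos _).le
    have hB' : be (m % 4) * r ^ d ≤
        (((261803400 / 10 ^ 8 * (535687387 / 10 ^ 9) ^ 3 : ℚ)) : ℝ) := by
      have h3 : r ^ 3 ≤ (535687387 / 10 ^ 9 : ℝ) ^ 3 := pow_le_pow_left₀ r_pos.le r_hi _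
      push_cast
      exact mul_le_mul (be_le _) (hr3.trans h3) (pow_pos r_pos _).le (by norm_num)
    exact ok_chkL (inbm j) (inbm k) hB hB' hA (left_chk j hj k (by omega) hjk hc)

/-- all triples of lines which are not axes -/
theorem ok_gl {i j k : ℕ} (hij : i < j) (hjk : j < k) : Ok (gl i) (gl j) (gl k) := by
  rcases Nat.lt_or_ge (i / 4 + 2) (j / 4) with h1 | h1
  · rcases Nat.lt_or_ge (j / 4 + 2) (k / 4) with h2 | h2
    · exact ok_far (by omega) (by omega)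
    · have e1 : j = 4 * (j / 4) + j % 4 := by omega
      have e2 : k = 4 * (j / 4) + (k - 4 * (j / 4)) := by omega
      rw [e1, e2]
      exact ok_left (j / 4) (by omega) (by omega) (by omega) (by omega)
  · have e1 : i = 4 * (i / 4) + i % 4 := by omega
    have e2 : j = 4 * (i / 4) + (j - 4 * (i / 4)) := by omega
    have e3 : k = 4 * (i / 4) + (k - 4 * (i / 4)) := by omega
    have key : Ok (gl (i % 4)) (gl (j - 4 * (i / 4))) (gl (k - 4 * (i / 4))) := by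
      rcases Nat.lt_or_ge (j / 4 + 2) (k / 4) with h2 | h2
      · exact ok_right (by omega) (by omega) (by omega) (by omega)
      · exact ok_near (by omega) (by omega) (by omega) (by omega) (by omega)
    have := ok_add (i / 4) _ _ _ key
    rwa [← e1, ← e2, ← e3] at this

/-! ### minors -/

theorem d_gl {i j : ℕ} (hij : i < j) : 0 < dd (gl i) (gl j) := by
  rcases Nat.lt_or_ge (i / 4 + 2) (j / 4) with h1 | h1
  · have f1 := far_a (m := i) (n := j) (by omega)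
    have f3 := far_b (m := i) (n := j) (by omega)
    have p1 := ga_pos i
    have p2 := ga_pos j
    have p4 := gb_pos i
    have p5 := gb_pos j
    unfold dd
    have : (gl j).1 * (gl i).2.1 < (gl i).1 * (gl j).2.1 :=
      mul_lt_mul (by linarith) (by linarith) p4 p1.le
    linarith
  · have e1 : i = 4 * (i / 4) + i % 4 := by omega
    have e2 : j = 4 * (i / 4) + (j - 4 * (i / 4)) := by omega
    rw [e1, e2]
    rw [dd_add]
    exact dpos (d_chk _ (by omega) _ (by omega) (by omega))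

/-! ### the axes -/

theorem okX_gen {a₁ b₁ a₂ b₂ : ℝ} (ha₂ : 0 < a₂) (ha₁ : a₂ ≤ a₁) (hb₂ : b₁ ≤ b₂)
    (h : 1 ≤ a₂ * b₂) : Ok (0, 1, 0) (a₁, b₁, 1) (a₂, b₂, 1) := by
  unfold Ok det3 dd
  refine le_trans ?_ (le_abs_self _)
  simp only [zero_mul, one_mul, mul_one, zero_sub]
  have e1 : 0 ≤ a₁ - a₂ := by linarith
  have e2 : a₁ - a₂ ≤ a₂ * (a₁ * b₂ - a₂ * b₁) := by
    have q1 : a₂ * b₁ ≤ a₂ * b₂ := mul_le_mul_of_nonneg_left hb₂ ha₂.le
    have q2 : a₂ * (a₂ * b₁) ≤ a₂ * (a₂ * b₂) := mul_le_mul_of_nonneg_left q1 ha₂.le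
    have q3 : 1 * (a₁ - a₂) ≤ a₂ * b₂ * (a₁ - a₂) := mul_le_mul_of_nonneg_right h e1
    nlinarith
  have e3 : (a₁ - a₂) * (a₁ - a₂) ≤ (a₂ * (a₁ * b₂ - a₂ * b₁)) * a₁ :=
    mul_le_mul e2 (by linarith) e1 (by linarith)
  nlinarith

theorem okY_gen {a₁ b₁ a₂ b₂ : ℝ} (ha₁ : a₂ ≤ a₁) (hb₁ : 0 < b₁) (hb₂ : b₁ ≤ b₂)
    (h : 1 ≤ a₁ * b₁) : Ok (1, 0, 0) (a₁, b₁, 1) (a₂, b₂, 1) := by
  unfold Ok det3 dd
  refine le_trans ?_ (le_abs_self _)
  simp only [zero_mul, one_mul, mul_zero, sub_zero]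
  have e1 : 0 ≤ b₂ - b₁ := by linarith
  have e2 : b₂ - b₁ ≤ b₁ * (a₁ * b₂ - a₂ * b₁) := by
    have q1 : a₂ * b₁ ≤ a₁ * b₁ := mul_le_mul_of_nonneg_right ha₁ hb₁.le
    have q2 : b₁ * (a₂ * b₁) ≤ b₁ * (a₁ * b₁) := mul_le_mul_of_nonneg_left q1 hb₁.le
    have q3 : 1 * (b₂ - b₁) ≤ a₁ * b₁ * (b₂ - b₁) := mul_le_mul_of_nonneg_right h e1
    nlinarith
  have e3 : (b₂ - b₁) * (b₂ - b₁) ≤ (b₁ * (a₁ * b₂ - a₂ * b₁)) * b₂ :=
    mul_le_mul e2 (by linarith) e1 (by linarith)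
  nlinarith

theorem dX (m : ℕ) : dd (0, 1, 0) (gl m) = - (gl m).1 := by
  unfold dd; simp only; ring

theorem dY (m : ℕ) : dd (1, 0, 0) (gl m) = (gl m).2.1 := by
  unfold dd; simp only; ring

theorem dXY : dd (0, 1, 0) (1, 0, 0) = -1 := by
  unfold dd; simp only; ring

theorem detX (m n : ℕ) : det3 (0, 1, 0) (gl m) (gl n) = (gl n).1 - (gl m).1 := by
  unfold det3 dd
  have e : ∀ m, (gl m).2.2 = 1 := fun m => rfl
  rw [e, e]; simp only; ring

theorem detY (m n : ℕ) : det3 (1, 0, 0) (gl m) (gl n) = (gl m).2.1 - (gl n).2.1 := by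
  unfold det3 dd
  have e : ∀ m, (gl m).2.2 = 1 := fun m => rfl
  rw [e, e]; simp only; ring

theorem detXY (m : ℕ) : det3 (0, 1, 0) (1, 0, 0) (gl m) = -1 := by
  unfold det3 dd
  have e : ∀ m, (gl m).2.2 = 1 := fun m => rfl
  rw [e]; simp only; ring

theorem okXY (m : ℕ) : Ok (0, 1, 0) (1, 0, 0) (gl m) := by
  unfold Ok
  rw [detXY, dX, dY, dXY]
  have h := gab m
  refine le_trans ?_ (le_abs_self _)
  nlinarith

theorem ga_add (q m : ℕ) : (gl (4 * q + m)).1 = (gl m).1 * r ^ q := by rw [gl_add]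

theorem gb_add (q m : ℕ) : (gl (4 * q + m)).2.1 = (gl m).2.1 * s ^ q := by rw [gl_add]

theorem tieX_add (q : ℕ) {i j : ℕ} (h : TieL (0, 1, 0) (gl i) (gl j)) :
    TieL (0, 1, 0) (gl (4 * q + i)) (gl (4 * q + j)) := by
  unfold TieL at *
  rw [detX, dX, dX, dd_add, ga_add, ga_add]
  rw [detX, dX, dX] at h
  have e1 : ((gl j).1 * r ^ q - (gl i).1 * r ^ q) ^ 2 = ((gl j).1 - (gl i).1) ^ 2 * (r ^ q) ^ 2 := by
    ring
  have e2 : -((gl i).1 * r ^ q) * dd (gl i) (gl j) * -((gl j).1 * r ^ q) =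
      (-(gl i).1 * dd (gl i) (gl j) * -(gl j).1) * (r ^ q) ^ 2 := by ring
  rw [e1, e2, abs_mul, ← h, abs_of_nonneg (sq_nonneg (r ^ q))]

theorem tieY_add (q : ℕ) {i j : ℕ} (h : TieL (1, 0, 0) (gl i) (gl j)) :
    TieL (1, 0, 0) (gl (4 * q + i)) (gl (4 * q + j)) := by
  unfold TieL at *
  rw [detY, dY, dY, dd_add, gb_add, gb_add]
  rw [detY, dY, dY] at h
  have e1 : ((gl i).2.1 * s ^ q - (gl j).2.1 * s ^ q) ^ 2 =
      ((gl i).2.1 - (gl j).2.1) ^ 2 * (s ^ q) ^ 2 := by ring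
  have e2 : (gl i).2.1 * s ^ q * dd (gl i) (gl j) * ((gl j).2.1 * s ^ q) =
      ((gl i).2.1 * dd (gl i) (gl j) * (gl j).2.1) * (s ^ q) ^ 2 := by ring
  rw [e1, e2, abs_mul, ← h, abs_of_nonneg (sq_nonneg (s ^ q))]

theorem okX_add (q : ℕ) {i j : ℕ} (h : Ok (0, 1, 0) (gl i) (gl j)) :
    Ok (0, 1, 0) (gl (4 * q + i)) (gl (4 * q + j)) := by
  unfold Ok at *
  rw [detX, dX, dX, dd_add, ga_add, ga_add]
  rw [detX, dX, dX] at h
  have e1 : ((gl j).1 * r ^ q - (gl i).1 * r ^ q) ^ 2 = ((gl j).1 - (gl i).1) ^ 2 * (r ^ q) ^ 2 := by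
    ring
  have e2 : -((gl i).1 * r ^ q) * dd (gl i) (gl j) * -((gl j).1 * r ^ q) =
      (-(gl i).1 * dd (gl i) (gl j) * -(gl j).1) * (r ^ q) ^ 2 := by ring
  rw [e1, e2, abs_mul, abs_of_nonneg (sq_nonneg (r ^ q))]
  exact mul_le_mul_of_nonneg_right h (sq_nonneg _)

theorem okY_add (q : ℕ) {i j : ℕ} (h : Ok (1, 0, 0) (gl i) (gl j)) :
    Ok (1, 0, 0) (gl (4 * q + i)) (gl (4 * q + j)) := by
  unfold Ok at *
  rw [detY, dY, dY, dd_add, gb_add, gb_add]
  rw [detY, dY, dY] at h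
  have e1 : ((gl i).2.1 * s ^ q - (gl j).2.1 * s ^ q) ^ 2 =
      ((gl i).2.1 - (gl j).2.1) ^ 2 * (s ^ q) ^ 2 := by ring
  have e2 : (gl i).2.1 * s ^ q * dd (gl i) (gl j) * ((gl j).2.1 * s ^ q) =
      ((gl i).2.1 * dd (gl i) (gl j) * (gl j).2.1) * (s ^ q) ^ 2 := by ring
  rw [e1, e2, abs_mul, abs_of_nonneg (sq_nonneg (s ^ q))]
  exact mul_le_mul_of_nonneg_right h (sq_nonneg _)

theorem tieX12 : TieL (0, 1, 0) (gl 1) (gl 2) := by
  unfold TieL
  rw [detX, dX, dX, g1, g2]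
  unfold dd
  simp only
  have h := x_sq
  have e2 : -(s ^ 2 - s) * ((s ^ 2 - s) * (s ^ 2 - s) - (s ^ 2 - s - 1) * (s ^ 2 - s + 1)) *
      -(s ^ 2 - s - 1) = 1 := by
    linear_combination h
  rw [e2]
  norm_num

theorem tieY01 : TieL (1, 0, 0) (gl 0) (gl 1) := by
  unfold TieL
  rw [detY, dY, dY, g0, g1]
  unfold dd
  simp only
  have h := x_sq
  have h' := x_lo
  have e2 : (1 : ℝ) * (1 * (s ^ 2 - s + 1) - (s ^ 2 - s) * 1) * (s ^ 2 - s + 1) =
      (s ^ 2 - s) ^ 2 := by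
    linear_combination - h
  rw [e2, abs_of_nonneg (sq_nonneg _)]
  ring

theorem okX {i j : ℕ} (hij : i < j) : Ok (0, 1, 0) (gl i) (gl j) := by
  rcases Nat.lt_or_ge (i / 4 + 2) (j / 4) with h1 | h1
  · have f1 := far_a (m := i) (n := j) (by omega)
    have f3 := far_b (m := i) (n := j) (by omega)
    have p1 := ga_pos i
    have p5 := gb_pos j
    have key : Ok (0, 1, 0) ((gl i).1, (gl i).2.1, 1) ((gl j).1, (gl j).2.1, 1) :=
      okX_gen (ga_pos j) (by linarith) (by linarith) (gab j)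
    exact key
  · have e1 : i = 4 * (i / 4) + i % 4 := by omega
    have e2 : j = 4 * (i / 4) + (j - 4 * (i / 4)) := by omega
    have key : Ok (0, 1, 0) (gl (i % 4)) (gl (j - 4 * (i / 4))) := by
      by_cases hc : i % 4 = 1 ∧ j - 4 * (i / 4) = 2
      · rw [hc.1, hc.2]
        exact tieX12.ok
      · exact ok_chkX (inbm _) (inbm _) (x_chk _ (by omega) _ (by omega) (by omega) hc)
    have := okX_add (i / 4) key
    rwa [← e1, ← e2] at this

theorem okY {i j : ℕ} (hij : i < j) : Ok (1, 0, 0) (gl i) (gl j) := by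
  rcases Nat.lt_or_ge (i / 4 + 2) (j / 4) with h1 | h1
  · have f1 := far_a (m := i) (n := j) (by omega)
    have f3 := far_b (m := i) (n := j) (by omega)
    have p1 := ga_pos i
    have p5 := gb_pos j
    have key : Ok (1, 0, 0) ((gl i).1, (gl i).2.1, 1) ((gl j).1, (gl j).2.1, 1) :=
      okY_gen (by linarith) (gb_pos i) (by linarith) (gab i)
    exact key
  · have e1 : i = 4 * (i / 4) + i % 4 := by omega
    have e2 : j = 4 * (i / 4) + (j - 4 * (i / 4)) := by omega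
    have key : Ok (1, 0, 0) (gl (i % 4)) (gl (j - 4 * (i / 4))) := by
      by_cases hc : i % 4 = 0 ∧ j - 4 * (i / 4) = 1
      · rw [hc.1, hc.2]
        exact tieY01.ok
      · exact ok_chkY (inbm _) (inbm _) (y_chk _ (by omega) _ (by omega) (by omega) hc)
    have := okY_add (i / 4) key
    rwa [← e1, ← e2] at this

end MaxTri.H
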