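import Pool.Agent.Lib.MP_27bb56_co_TRI.Count
import Pool.Agent.Lib.MP_27bb56_co_TRI.HalfOk

/-! # the lower bound with slope `5 / 2` -/

set_option autoImplicit false

namespace MaxTri.H

open MaxTri

/-- the family: the two axes, then the blocks -/
noncomputable def fam (i : ℕ) : ℝ × ℝ × ℝ :=
  if i = 0 then (0, 1, 0) else if i = 1 then (1, 0, 0) else gl (i - 2)

theorem fam_zero : fam 0 = (0, 1, 0) := by simp [fam]

theorem fam_one : fam 1 = (1, 0, 0) := by simp [fam]

theorem fam_add (m : ℕ) : fam (m + 2) = gl m := by simp [fam]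

theorem fam_dd (i j : ℕ) (hij : i < j) : dd (fam i) (fam j) ≠ 0 := by
  rcases Nat.lt_or_ge j 2 with hj | hj
  · obtain rfl : j = 1 := by omega
    obtain rfl : i = 0 := by omega
    rw [fam_zero, fam_one, dXY]
    norm_num
  · obtain ⟨j', rfl⟩ : ∃ j', j = j' + 2 := ⟨j - 2, by omega⟩
    rcases Nat.lt_or_ge i 2 with hi | hi
    · rcases Nat.lt_or_ge i 1 with hi' | hi'
      · obtain rfl : i = 0 := by omega
        rw [fam_zero, fam_add, dX]
        exact neg_ne_zero.mpr (ga_pos _).ne'
      · obtain rfl : i = 1 := by omega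
        rw [fam_one, fam_add, dY]
        exact (gb_pos _).ne'
    · obtain ⟨i', rfl⟩ : ∃ i', i = i' + 2 := ⟨i - 2, by omega⟩
      rw [fam_add, fam_add]
      exact (d_gl (by omega)).ne'

theorem fam_ok (i j k : ℕ) (hij : i < j) (hjk : j < k) : Ok (fam i) (fam j) (fam k) := by
  obtain ⟨k', rfl⟩ : ∃ k', k = k' + 2 := ⟨k - 2, by omega⟩
  rcases Nat.lt_or_ge j 2 with hj | hj
  · obtain rfl : j = 1 := by omega
    obtain rfl : i = 0 := by omega
    rw [fam_zero, fam_one, fam_add]
    exact okXY _
  · obtain ⟨j', rfl⟩ : ∃ j', j = j' + 2 := ⟨j - 2, by omega⟩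
    rcases Nat.lt_or_ge i 2 with hi | hi
    · rcases Nat.lt_or_ge i 1 with hi' | hi'
      · obtain rfl : i = 0 := by omega
        rw [fam_zero, fam_add, fam_add]
        exact okX (by omega)
      · obtain rfl : i = 1 := by omega
        rw [fam_one, fam_add, fam_add]
        exact okY (by omega)
    · obtain ⟨i', rfl⟩ : ∃ i', i = i' + 2 := ⟨i - 2, by omega⟩
      rw [fam_add, fam_add, fam_add]
      exact ok_gl (by omega) (by omega)

/-- the triangle of three members of the family has area `1 / 2` -/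
def Tie (i j k : ℕ) : Prop := TieL (fam i) (fam j) (fam k)

theorem tieXY {m : ℕ} (h : m % 4 = 0 ∨ m % 4 = 2) : Tie 0 1 (m + 2) := by
  unfold Tie TieL
  rw [fam_zero, fam_one, fam_add, detXY, dX, dY, dXY]
  have hx := x_sq
  have e : al (m % 4) * be (m % 4) = 1 := by
    rcases h with h | h
    · rw [h, al_0, be_0]; norm_num
    · rw [h, al_2, be_2]
      linear_combination hx
  have e2 : -1 * (gl m).2.1 * -(gl m).1 =
      al (m % 4) * be (m % 4) * (r ^ (m / 4) * s ^ (m / 4)) := by
    unfold gl
    simp only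
    ring
  rw [e2, e, rs]
  norm_num

theorem tieX (q : ℕ) : Tie 0 (4 * q + 1 + 2) (4 * q + 2 + 2) := by
  unfold Tie
  rw [fam_zero, fam_add, fam_add]
  exact tieX_add q (i := 1) (j := 2) tieX12

theorem tieY (q : ℕ) : Tie 1 (4 * q + 0 + 2) (4 * q + 1 + 2) := by
  unfold Tie
  rw [fam_one, fam_add, fam_add]
  exact tieY_add q (i := 0) (j := 1) tieY01

theorem tieG (q : ℕ) {i j k : ℕ} (h : TieL (gl i) (gl j) (gl k)) :
    Tie (4 * q + i + 2) (4 * q + j + 2) (4 * q + k + 2) := by
  unfold Tie
  rw [fam_add, fam_add, fam_add]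
  exact tie_add q i j k h

/-- number of new ties of line `N + 2` -/
def inc (N : ℕ) : ℕ :=
  if N % 4 = 0 then (if N < 4 then 1 else 2) else
  if N % 4 = 1 then (if N < 4 then 1 else 4) else
  if N % 4 = 2 then 3 else 1

/-- number of ties among the first `N + 2` lines -/
def num : ℕ → ℕ
  | 0 => 0
  | N + 1 => num N + inc N

theorem num_succ (N : ℕ) : num (N + 1) = num N + inc N := rfl

theorem num_four (q : ℕ) : num (4 * q + 4) = 10 * q + 6 := by
  induction q with
  | zero => rfl
  | succ q ih =>
    have e : 4 * (q + 1) + 4 = 4 * q + 4 + 1 + 1 + 1 + 1 := by ring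
    have i0 : inc (4 * q + 4) = 2 := by
      unfold inc
      rw [if_pos (by omega), if_neg (by omega)]
    have i1 : inc (4 * q + 4 + 1) = 4 := by
      unfold inc
      rw [if_neg (by omega), if_pos (by omega), if_neg (by omega)]
    have i2 : inc (4 * q + 4 + 1 + 1) = 3 := by
      unfold inc
      rw [if_neg (by omega), if_neg (by omega), if_pos (by omega)]
    have i3 : inc (4 * q + 4 + 1 + 1 + 1) = 1 := by
      unfold inc
      rw [if_neg (by omega), if_neg (by omega), if_neg (by omega)]
    rw [e, num_succ, num_succ, num_succ, num_succ, ih, i0, i1, i2, i3]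
    ring

theorem num_ge (N : ℕ) : 5 * N ≤ 2 * num N + 9 := by
  rcases Nat.lt_or_ge N 4 with h | h
  · have hc : N = 0 ∨ N = 1 ∨ N = 2 ∨ N = 3 := by omega
    rcases hc with rfl | rfl | rfl | rfl <;> decide
  · obtain ⟨q, t, ht, rfl⟩ : ∃ q t, t < 4 ∧ N = 4 * q + 4 + t :=
      ⟨N / 4 - 1, N % 4, by omega, by omega⟩
    have i0 : inc (4 * q + 4) = 2 := by
      unfold inc
      rw [if_pos (by omega), if_neg (by omega)]
    have i1 : inc (4 * q + 4 + 1) = 4 := by
      unfold inc
      rw [if_neg (by omega), if_pos (by omega), if_neg (by omega)]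
    have i2 : inc (4 * q + 4 + 1 + 1) = 3 := by
      unfold inc
      rw [if_neg (by omega), if_neg (by omega), if_pos (by omega)]
    have n0 := num_four q
    have n1 : num (4 * q + 4 + 1) = 10 * q + 6 + 2 := by rw [num_succ, n0, i0]
    have n2 : num (4 * q + 4 + 1 + 1) = 10 * q + 6 + 2 + 4 := by rw [num_succ, n1, i1]
    have n3 : num (4 * q + 4 + 1 + 1 + 1) = 10 * q + 6 + 2 + 4 + 3 := by rw [num_succ, n2, i2]
    have hc : t = 0 ∨ t = 1 ∨ t = 2 ∨ t = 3 := by omega
    rcases hc with rfl | rfl | rfl | rfl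
    · rw [add_zero, n0]; omega
    · rw [n1]; omega
    · rw [show 4 * q + 4 + 2 = 4 * q + 4 + 1 + 1 by ring, n2]; omega
    · rw [show 4 * q + 4 + 3 = 4 * q + 4 + 1 + 1 + 1 by ring, n3]; omega

/-- new ties of the line `N + 2` -/
theorem new_ties (N : ℕ) : ∃ G : Finset (Finset ℕ), G.card = inc N ∧ ∀ T ∈ G, N + 2 ∈ T ∧
    ∃ i j k, i < j ∧ j < k ∧ k < N + 1 + 2 ∧ T = {i, j, k} ∧ Tie i j k := by
  have ne {A B : Finset ℕ} {x : ℕ} (h1 : x ∈ A) (h2 : x ∉ B) : A ≠ B := fun h => h2 (h ▸ h1)
  obtain ⟨q, t, ht, rfl⟩ : ∃ q t, t < 4 ∧ N = 4 * q + t := ⟨N / 4, N % 4, by omega, by omega⟩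
  have hc : t = 0 ∨ t = 1 ∨ t = 2 ∨ t = 3 := by omega
  rcases hc with rfl | rfl | rfl | rfl
  · -- a tangent
    rcases Nat.eq_zero_or_pos q with rfl | hq
    · refine ⟨{{0, 1, 2}}, by rfl, ?_⟩
      intro T hT
      rw [Finset.mem_singleton] at hT
      subst hT
      exact ⟨by simp, 0, 1, 2, by omega, by omega, by omega, rfl, tieXY (m := 0) (Or.inl rfl)⟩
    · obtain ⟨p, rfl⟩ : ∃ p, q = p + 1 := ⟨q - 1, by omega⟩
      have hi : inc (4 * (p + 1) + 0) = 2 := by
        unfold inc
        rw [if_pos (by omega), if_neg (by omega)]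
      have e1 : 4 * (p + 1) + 0 + 2 = 4 * p + 4 + 2 := by ring
      refine ⟨{{0, 1, 4 * (p + 1) + 0 + 2}, {4 * p + 2 + 2, 4 * p + 3 + 2, 4 * (p + 1) + 0 + 2}},
        ?_, ?_⟩
      · rw [hi, Finset.card_pair]
        apply ne (x := 0)
        · simp
        · simp only [Finset.mem_insert, Finset.mem_singleton]
          omega
      · intro T hT
        simp only [Finset.mem_insert, Finset.mem_singleton] at hT
        rcases hT with rfl | rfl
        · exact ⟨by simp, 0, 1, 4 * (p + 1) + 0 + 2, by omega, by omega, by omega, rfl,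
            tieXY (Or.inl (by omega))⟩
        · refine ⟨by simp, 4 * p + 2 + 2, 4 * p + 3 + 2, 4 * (p + 1) + 0 + 2, by omega, by omega,
            by omega, rfl, ?_⟩
          rw [e1]
          exact tieG p (i := 2) (j := 3) (k := 4) tie234
  · rcases Nat.eq_zero_or_pos q with rfl | hq
    · refine ⟨{{1, 2, 3}}, by rfl, ?_⟩
      intro T hT
      rw [Finset.mem_singleton] at hT
      subst hT
      exact ⟨by simp, 1, 2, 3, by omega, by omega, by omega, rfl, tieY 0⟩
    · obtain ⟨p, rfl⟩ : ∃ p, q = p + 1 := ⟨q - 1, by omega⟩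
      have hi : inc (4 * (p + 1) + 1) = 4 := by
        unfold inc
        rw [if_neg (by omega), if_pos (by omega), if_neg (by omega)]
      have e1 : 4 * (p + 1) + 1 + 2 = 4 * p + 5 + 2 := by ring
      have e2 : 4 * (p + 1) + 0 + 2 = 4 * p + 4 + 2 := by ring
      refine ⟨{{1, 4 * (p + 1) + 0 + 2, 4 * (p + 1) + 1 + 2},
        {4 * p + 1 + 2, 4 * p + 2 + 2, 4 * (p + 1) + 1 + 2},
        {4 * p + 1 + 2, 4 * (p + 1) + 0 + 2, 4 * (p + 1) + 1 + 2},
        {4 * p + 3 + 2, 4 * (p + 1) + 0 + 2, 4 * (p + 1) + 1 + 2}}, ?_, ?_⟩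
      · rw [hi, Finset.card_insert_of_notMem, Finset.card_insert_of_notMem,
          Finset.card_insert_of_notMem, Finset.card_singleton]
        · simp only [Finset.mem_singleton]
          apply ne (x := 4 * p + 1 + 2)
          · simp
          · simp only [Finset.mem_insert, Finset.mem_singleton]
            omega
        · simp only [Finset.mem_insert, Finset.mem_singleton, not_or]
          constructor
          · apply ne (x := 4 * p + 2 + 2)
            · simp
            · simp only [Finset.mem_insert, Finset.mem_singleton]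
              omega
          · apply ne (x := 4 * p + 2 + 2)
            · simp
            · simp only [Finset.mem_insert, Finset.mem_singleton]
              omega
        · simp only [Finset.mem_insert, Finset.mem_singleton, not_or]
          refine ⟨?_, ?_, ?_⟩
          · apply ne (x := 1)
            · simp
            · simp only [Finset.mem_insert, Finset.mem_singleton]
              omega
          · apply ne (x := 1)
            · simp
            · simp only [Finset.mem_insert, Finset.mem_singleton]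
              omega
          · apply ne (x := 1)
            · simp
            · simp only [Finset.mem_insert, Finset.mem_singleton]
              omega
      · intro T hT
        simp only [Finset.mem_insert, Finset.mem_singleton] at hT
        rcases hT with rfl | rfl | rfl | rfl
        · exact ⟨by simp, 1, 4 * (p + 1) + 0 + 2, 4 * (p + 1) + 1 + 2, by omega, by omega,
            by omega, rfl, tieY (p + 1)⟩
        · refine ⟨by simp, 4 * p + 1 + 2, 4 * p + 2 + 2, 4 * (p + 1) + 1 + 2, by omega, by omega,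
            by omega, rfl, ?_⟩
          rw [e1]
          exact tieG p (i := 1) (j := 2) (k := 5) tie125
        · refine ⟨by simp, 4 * p + 1 + 2, 4 * (p + 1) + 0 + 2, 4 * (p + 1) + 1 + 2, by omega,
            by omega, by omega, rfl, ?_⟩
          rw [e1, e2]
          exact tieG p (i := 1) (j := 4) (k := 5) tie145
        · refine ⟨by simp, 4 * p + 3 + 2, 4 * (p + 1) + 0 + 2, 4 * (p + 1) + 1 + 2, by omega,
            by omega, by omega, rfl, ?_⟩
          rw [e1, e2]
          exact tieG p (i := 3) (j := 4) (k := 5) tie345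
  · have hi : inc (4 * q + 2) = 3 := by
      unfold inc
      rw [if_neg (by omega), if_neg (by omega), if_pos (by omega)]
    refine ⟨{{0, 1, 4 * q + 2 + 2}, {0, 4 * q + 1 + 2, 4 * q + 2 + 2},
      {4 * q + 0 + 2, 4 * q + 1 + 2, 4 * q + 2 + 2}}, ?_, ?_⟩
    · rw [hi, Finset.card_insert_of_notMem, Finset.card_insert_of_notMem, Finset.card_singleton]
      · simp only [Finset.mem_singleton]
        apply ne (x := 0)
        · simp
        · simp only [Finset.mem_insert, Finset.mem_singleton]
          omega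
      · simp only [Finset.mem_insert, Finset.mem_singleton, not_or]
        constructor
        · apply ne (x := 1)
          · simp
          · simp only [Finset.mem_insert, Finset.mem_singleton]
            omega
        · apply ne (x := 1)
          · simp
          · simp only [Finset.mem_insert, Finset.mem_singleton]
            omega
    · intro T hT
      simp only [Finset.mem_insert, Finset.mem_singleton] at hT
      rcases hT with rfl | rfl | rfl
      · exact ⟨by simp, 0, 1, 4 * q + 2 + 2, by omega, by omega, by omega, rfl,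
          tieXY (Or.inr (by omega))⟩
      · exact ⟨by simp, 0, 4 * q + 1 + 2, 4 * q + 2 + 2, by omega, by omega, by omega, rfl,
          tieX q⟩
      · exact ⟨by simp, 4 * q + 0 + 2, 4 * q + 1 + 2, 4 * q + 2 + 2, by omega, by omega, by omega,
          rfl, tieG q (i := 0) (j := 1) (k := 2) tie012⟩
  · have hi : inc (4 * q + 3) = 1 := by
      unfold inc
      rw [if_neg (by omega), if_neg (by omega), if_neg (by omega)]
    refine ⟨{{4 * q + 1 + 2, 4 * q + 2 + 2, 4 * q + 3 + 2}}, ?_, ?_⟩
    · rw [hi, Finset.card_singleton]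
    · intro T hT
      rw [Finset.mem_singleton] at hT
      subst hT
      exact ⟨by simp, 4 * q + 1 + 2, 4 * q + 2 + 2, 4 * q + 3 + 2, by omega, by omega, by omega,
        rfl, tieG q (i := 1) (j := 2) (k := 3) tie123⟩

theorem ties (N : ℕ) : ∃ W : Finset (Finset ℕ), W.card = num N ∧
    ∀ T ∈ W, ∃ i j k, i < j ∧ j < k ∧ k < N + 2 ∧ T = {i, j, k} ∧ Tie i j k := by
  induction N with
  | zero => exact ⟨∅, rfl, by simp⟩
  | succ N ih =>
    obtain ⟨W, hc, hW⟩ := ih
    obtain ⟨G, hg, hG⟩ := new_ties N
    have hnot : ∀ T ∈ W, N + 2 ∉ T := by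
      intro T hT
      obtain ⟨i, j, k, h1, h2, h3, rfl, -⟩ := hW T hT
      simp only [Finset.mem_insert, Finset.mem_singleton]
      omega
    have hdis : Disjoint W G := by
      rw [Finset.disjoint_left]
      intro T hT hT'
      exact hnot T hT (hG T hT').1
    refine ⟨W ∪ G, ?_, ?_⟩
    · rw [Finset.card_union_of_disjoint hdis, hc, hg, num_succ]
    · intro T hT
      rw [Finset.mem_union] at hT
      rcases hT with hT | hT
      · obtain ⟨i, j, k, h1, h2, h3, h4, h5⟩ := hW T hT
        exact ⟨i, j, k, h1, h2, by omega, h4, h5⟩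
      · exact (hG T hT).2

theorem lower (n : ℕ) (hn : 3 ≤ n) : 5 * n ≤ 2 * M n + 19 := by
  obtain ⟨N, rfl⟩ : ∃ N, n = N + 2 := ⟨n - 2, by omega⟩
  obtain ⟨W, hc, hW⟩ := ties N
  have h1 := num_ge N
  have hpos : 0 < W.card := by
    rw [hc]
    obtain ⟨K, rfl⟩ : ∃ K, N = K + 1 := ⟨N - 1, by omega⟩
    rw [num_succ]
    unfold inc
    split_ifs <;> omega
  have h2 : W.card ≤ M (N + 2) := M_ge fam_dd fam_ok (N + 2) W
    (Finset.card_pos.mp hpos) hW
  omega

end MaxTri.H
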