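import Pool.Agent.Lib.MP_27bb56_co_TRI.Chk

/-! # the family of lines with four lines per block -/

set_option autoImplicit false

namespace MaxTri.H

open MaxTri

theorem root : ∃ x : ℝ, 1866760399173 / 10 ^ 12 ≤ x ∧ x ≤ 1866760399174 / 10 ^ 12 ∧
    x ^ 4 - 2 * x ^ 3 + x - 1 = 0 := by
  have hle : (1866760399173 / 10 ^ 12 : ℝ) ≤ 1866760399174 / 10 ^ 12 := by norm_num
  have hc : ContinuousOn (fun x : ℝ => x ^ 4 - 2 * x ^ 3 + x - 1)
      (Set.Icc (1866760399173 / 10 ^ 12) (1866760399174 / 10 ^ 12)) := by fun_prop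
  have h0 : (0 : ℝ) ∈ Set.Icc ((fun x : ℝ => x ^ 4 - 2 * x ^ 3 + x - 1) (1866760399173 / 10 ^ 12))
      ((fun x : ℝ => x ^ 4 - 2 * x ^ 3 + x - 1) (1866760399174 / 10 ^ 12)) := by
    constructor <;> norm_num
  obtain ⟨x, hx, hfx⟩ := intermediate_value_Icc hle hc h0
  exact ⟨x, hx.1, hx.2, hfx⟩

/-- the ratio of two consecutive blocks, a root of `x ^ 4 - 2 * x ^ 3 + x - 1` -/
noncomputable def s : ℝ := root.choose

theorem s_lo' : 1866760399173 / 10 ^ 12 ≤ s := root.choose_spec.1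

theorem s_hi' : s ≤ 1866760399174 / 10 ^ 12 := root.choose_spec.2.1

theorem s_lo : 1866760399 / 10 ^ 9 ≤ s := le_trans (by norm_num) s_lo'

theorem s_hi : s ≤ 18667604 / 10 ^ 7 := le_trans s_hi' (by norm_num)

theorem hs : s ^ 4 - 2 * s ^ 3 + s - 1 = 0 := root.choose_spec.2.2

/-- the inverse of `s` -/
noncomputable def r : ℝ := s ^ 3 - 2 * s ^ 2 + 1

theorem rs1 : r * s = 1 := by
  unfold r
  linear_combination hs

theorem s_pos : 0 < s := lt_of_lt_of_le (by norm_num) s_lo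

theorem r_lo : 535687386 / 10 ^ 9 ≤ r := by
  have h1 := rs1
  have h2 := s_hi
  have h3 := s_pos
  by_contra h
  push Not at h
  have : r * s ≤ 535687386 / 10 ^ 9 * (18667604 / 10 ^ 7) :=
    mul_le_mul h.le h2 h3.le (by norm_num)
  norm_num at this
  linarith

theorem r_hi : r ≤ 535687387 / 10 ^ 9 := by
  have h1 := rs1
  have h2 := s_lo
  have h3 := s_pos
  by_contra h
  push Not at h
  have h0 : (0 : ℝ) < r := lt_trans (by norm_num) h
  have : 535687387 / 10 ^ 9 * (1866760399 / 10 ^ 9) ≤ r * s :=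
    mul_le_mul h.le h2 (by norm_num) h0.le
  norm_num at this
  linarith

theorem r_pos : 0 < r := lt_of_lt_of_le (by norm_num) r_lo

/-- first coefficients in a block -/
noncomputable def al (t : ℕ) : ℝ := if t = 0 then 1 else if t = 1 then s ^ 2 - s else
  if t = 2 then s ^ 2 - s - 1 else (3 * s ^ 3 + s ^ 2 - 5 * s - 5) / 11

/-- second coefficients in a block -/
noncomputable def be (t : ℕ) : ℝ := if t = 0 then 1 else if t = 1 then s ^ 2 - s + 1 else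
  if t = 2 then s ^ 2 - s else (s ^ 3 + 4 * s ^ 2 + 2 * s + 2) / 11

theorem al_0 : al 0 = 1 := by simp [al]
theorem al_1 : al 1 = s ^ 2 - s := by simp [al]
theorem al_2 : al 2 = s ^ 2 - s - 1 := by simp [al]
theorem al_3 : al 3 = (3 * s ^ 3 + s ^ 2 - 5 * s - 5) / 11 := by simp [al]
theorem be_0 : be 0 = 1 := by simp [be]
theorem be_1 : be 1 = s ^ 2 - s + 1 := by simp [be]
theorem be_2 : be 2 = s ^ 2 - s := by simp [be]
theorem be_3 : be 3 = (s ^ 3 + 4 * s ^ 2 + 2 * s + 2) / 11 := by simp [be]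

/-- bounds for the coefficients of the first block -/
def bd0 (t : ℕ) : Bd := if t = 0 then ⟨1, 1, 1, 1⟩ else
  if t = 1 then ⟨161803398 / 10 ^ 8, 161803400 / 10 ^ 8, 261803398 / 10 ^ 8, 261803400 / 10 ^ 8⟩ else
  if t = 2 then ⟨61803398 / 10 ^ 8, 61803400 / 10 ^ 8, 161803398 / 10 ^ 8, 161803400 / 10 ^ 8⟩ else
  ⟨78789280 / 10 ^ 8, 78789282 / 10 ^ 8, 237981580 / 10 ^ 8, 237981600 / 10 ^ 8⟩

theorem s2_lo : 34847943879 / 10 ^ 10 ≤ s ^ 2 := by
  have h3 : (1866760399173 / 10 ^ 12 : ℝ) ^ 2 ≤ s ^ 2 := pow_le_pow_left₀ (by norm_num) s_lo' 2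
  refine le_trans ?_ h3
  norm_num

theorem s2_hi : s ^ 2 ≤ 34847943880 / 10 ^ 10 := by
  have h3 : s ^ 2 ≤ (1866760399174 / 10 ^ 12 : ℝ) ^ 2 := pow_le_pow_left₀ s_pos.le s_hi' 2
  refine le_trans h3 ?_
  norm_num

theorem s3_lo : 65052761626 / 10 ^ 10 ≤ s ^ 3 := by
  have h3 : (1866760399173 / 10 ^ 12 : ℝ) ^ 3 ≤ s ^ 3 := pow_le_pow_left₀ (by norm_num) s_lo' 3
  refine le_trans ?_ h3
  norm_num

theorem s3_hi : s ^ 3 ≤ 65052761627 / 10 ^ 10 := by
  have h3 : s ^ 3 ≤ (1866760399174 / 10 ^ 12 : ℝ) ^ 3 := pow_le_pow_left₀ s_pos.le s_hi' 3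
  refine le_trans h3 ?_
  norm_num

theorem inb0 (t : ℕ) : Inb (bd0 t) (al t) (be t) := by
  have h1 := s_lo'
  have h2 := s_hi'
  have h3 := s2_lo
  have h4 := s2_hi
  have h5 := s3_lo
  have h6 := s3_hi
  unfold bd0 al be
  split_ifs
  all_goals
    constructor <;> push_cast <;> first | norm_num; done | linarith

/-- bounds for line `t` of block `j` -/
def bd (t j : ℕ) : Bd := ⟨(bd0 t).la * (535687386 / 10 ^ 9) ^ j, (bd0 t).ua * (535687387 / 10 ^ 9) ^ j,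
  (bd0 t).lb * (1866760399 / 10 ^ 9) ^ j, (bd0 t).ub * (18667604 / 10 ^ 7) ^ j⟩

theorem inb (t j : ℕ) : Inb (bd t j) (al t * r ^ j) (be t * s ^ j) := by
  have h := inb0 t
  have hal : 0 < al t := h.pa.trans_le h.ha
  have hbe : 0 < be t := h.pb.trans_le h.hb
  have r1 : (535687386 / 10 ^ 9 : ℝ) ^ j ≤ r ^ j := pow_le_pow_left₀ (by norm_num) r_lo j
  have r2 : r ^ j ≤ (535687387 / 10 ^ 9 : ℝ) ^ j := pow_le_pow_left₀ r_pos.le r_hi j
  have s1 : (1866760399 / 10 ^ 9 : ℝ) ^ j ≤ s ^ j := pow_le_pow_left₀ (by norm_num) s_lo j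
  have s2 : s ^ j ≤ (18667604 / 10 ^ 7 : ℝ) ^ j := pow_le_pow_left₀ s_pos.le s_hi j
  unfold bd
  constructor
  · push_cast
    exact mul_pos h.pa (by positivity)
  · push_cast
    exact mul_le_mul h.ha r1 (by positivity) hal.le
  · push_cast
    exact mul_le_mul h.ha' r2 (pow_nonneg r_pos.le _) (hal.le.trans h.ha')
  · push_cast
    exact mul_pos h.pb (by positivity)
  · push_cast
    exact mul_le_mul h.hb s1 (by positivity) hbe.le
  · push_cast
    exact mul_le_mul h.hb' s2 (pow_nonneg s_pos.le _) (hbe.le.trans h.hb')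

/-- line number `m` without the axes -/
noncomputable def gl (m : ℕ) : ℝ × ℝ × ℝ := (al (m % 4) * r ^ (m / 4), be (m % 4) * s ^ (m / 4), 1)

/-- bounds for `gl m` -/
def bm (m : ℕ) : Bd := bd (m % 4) (m / 4)

theorem inbm (m : ℕ) : Inb (bm m) (gl m).1 (gl m).2.1 := inb _ _

theorem rs (q : ℕ) : r ^ q * s ^ q = 1 := by
  rw [← mul_pow, rs1, one_pow]

theorem gl_add (q m : ℕ) : gl (4 * q + m) = ((gl m).1 * r ^ q, (gl m).2.1 * s ^ q, 1) := by
  unfold gl
  have e1 : (4 * q + m) % 4 = m % 4 := by omega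
  have e2 : (4 * q + m) / 4 = m / 4 + q := by omega
  rw [e1, e2, pow_add, pow_add]
  simp only [mul_assoc]

theorem dd_add (q m n : ℕ) : dd (gl (4 * q + m)) (gl (4 * q + n)) = dd (gl m) (gl n) := by
  rw [gl_add, gl_add]
  unfold dd
  simp only
  have e : (gl m).1 * r ^ q * ((gl n).2.1 * s ^ q) - (gl n).1 * r ^ q * ((gl m).2.1 * s ^ q) =
      ((gl m).1 * (gl n).2.1 - (gl n).1 * (gl m).2.1) * (r ^ q * s ^ q) := by ring
  rw [e, rs, mul_one]

theorem det3_gl (i j k : ℕ) : det3 (gl i) (gl j) (gl k) =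
    dd (gl j) (gl k) - dd (gl i) (gl k) + dd (gl i) (gl j) := by
  unfold det3
  have e : ∀ m, (gl m).2.2 = 1 := fun m => rfl
  rw [e, e, e, one_mul, one_mul, one_mul]

/-- the equation `area = 1 / 2` -/
def TieL (u v w : ℝ × ℝ × ℝ) : Prop := det3 u v w ^ 2 = |dd u v * dd v w * dd u w|

theorem tie_add (q i j k : ℕ) (h : TieL (gl i) (gl j) (gl k)) :
    TieL (gl (4 * q + i)) (gl (4 * q + j)) (gl (4 * q + k)) := by
  unfold TieL at *
  rw [det3_gl, dd_add, dd_add, dd_add, ← det3_gl]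
  exact h

theorem ok_add (q i j k : ℕ) (h : Ok (gl i) (gl j) (gl k)) :
    Ok (gl (4 * q + i)) (gl (4 * q + j)) (gl (4 * q + k)) := by
  unfold Ok at *
  rw [det3_gl, dd_add, dd_add, dd_add, ← det3_gl]
  exact h

theorem g0 : gl 0 = (1, 1, 1) := by simp [gl, al_0, be_0]
theorem g1 : gl 1 = (s ^ 2 - s, s ^ 2 - s + 1, 1) := by simp [gl, al_1, be_1]
theorem g2 : gl 2 = (s ^ 2 - s - 1, s ^ 2 - s, 1) := by simp [gl, al_2, be_2]
theorem g3 : gl 3 = ((3 * s ^ 3 + s ^ 2 - 5 * s - 5) / 11,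
    (s ^ 3 + 4 * s ^ 2 + 2 * s + 2) / 11, 1) := by simp [gl, al_3, be_3]
theorem g4 : gl 4 = (r, s, 1) := by simp [gl, al_0, be_0]
theorem g5 : gl 5 = ((s ^ 2 - s) * r, (s ^ 2 - s + 1) * s, 1) := by simp [gl, al_1, be_1]

theorem dpos {m n : ℕ} (h : 0 < dlo (bm m) (bm n)) : 0 < dd (gl m) (gl n) := by
  have h' : (0 : ℝ) < dlo (bm m) (bm n) := by exact_mod_cast h
  exact h'.trans_le (dlo_le (inbm m) (inbm n))

theorem tie_of {i j k : ℕ} (h1 : 0 < dlo (bm i) (bm j)) (h2 : 0 < dlo (bm j) (bm k))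
    (h3 : 0 < dlo (bm i) (bm k)) (h : det3 (gl i) (gl j) (gl k) ^ 2 =
      dd (gl i) (gl j) * dd (gl j) (gl k) * dd (gl i) (gl k)) : TieL (gl i) (gl j) (gl k) := by
  unfold TieL
  rw [h, abs_of_pos]
  exact mul_pos (mul_pos (dpos h1) (dpos h2)) (dpos h3)

theorem tie012 : TieL (gl 0) (gl 1) (gl 2) := by
  apply tie_of (by decide +kernel) (by decide +kernel) (by decide +kernel)
  rw [det3_gl, g0, g1, g2]
  unfold dd
  simp only
  linear_combination (0) * hs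

theorem tie123 : TieL (gl 1) (gl 2) (gl 3) := by
  apply tie_of (by decide +kernel) (by decide +kernel) (by decide +kernel)
  rw [det3_gl, g1, g2, g3]
  unfold dd
  simp only
  linear_combination ((-26 / 121) + (-1 / 11) * s ^ 1 + (-36 / 121) * s ^ 2 + (-12 / 121) * s ^
      3 + (7 / 121) * s ^ 4 + (12 / 121) * s ^ 5 + (-4 / 121) * s ^ 6) * hs

theorem tie125 : TieL (gl 1) (gl 2) (gl 5) := by
  apply tie_of (by decide +kernel) (by decide +kernel) (by decide +kernel)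
  rw [det3_gl, g1, g2, g5]
  unfold dd
  simp only
  unfold r
  linear_combination ((-1) + (3) * s ^ 1 + (-6) * s ^ 2 + (4) * s ^ 3 + (7) * s ^ 4 + (-10) * s
      ^ 5 + (-1) * s ^ 6 + (12) * s ^ 7 + (-13) * s ^ 8 + (6) * s ^ 9 + (-1) * s ^ 10) * hs

theorem tie145 : TieL (gl 1) (gl 4) (gl 5) := by
  apply tie_of (by decide +kernel) (by decide +kernel) (by decide +kernel)
  rw [det3_gl, g1, g4, g5]
  unfold dd
  simp only
  unfold r
  linear_combination ((-1) + (1) * s ^ 1 + (5) * s ^ 2 + (-7) * s ^ 3 + (-6) * s ^ 4 + (14) * s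
      ^ 5 + (-1) * s ^ 6 + (-10) * s ^ 7 + (-2) * s ^ 8 + (19) * s ^ 9 + (-18) * s ^ 10 + (7) *
      s ^ 11 + (-1) * s ^ 12) * hs

theorem tie234 : TieL (gl 2) (gl 3) (gl 4) := by
  apply tie_of (by decide +kernel) (by decide +kernel) (by decide +kernel)
  rw [det3_gl, g2, g3, g4]
  unfold dd
  simp only
  unfold r
  linear_combination ((-16 / 121) + (-144 / 121) * s ^ 1 + (-304 / 121) * s ^ 2 + (204 / 121) *
      s ^ 3 + (485 / 121) * s ^ 4 + (-134 / 121) * s ^ 5 + (-150 / 121) * s ^ 6 + (-105 / 121)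
      * s ^ 7 + (58 / 121) * s ^ 8 + (69 / 121) * s ^ 9 + (-32 / 121) * s ^ 10 + (-3 / 121) * s
      ^ 11 + (2 / 121) * s ^ 12) * hs

theorem tie345 : TieL (gl 3) (gl 4) (gl 5) := by
  apply tie_of (by decide +kernel) (by decide +kernel) (by decide +kernel)
  rw [det3_gl, g3, g4, g5]
  unfold dd
  simp only
  unfold r
  linear_combination ((-4 / 121) + (24 / 121) * s ^ 1 + (-39 / 121) * s ^ 2 + (-16 / 121) * s ^
      3 + (274 / 121) * s ^ 4 + (-157 / 121) * s ^ 5 + (-36 / 11) * s ^ 6 + (224 / 121) * s ^ 7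
      + (211 / 121) * s ^ 8 + (-30 / 121) * s ^ 9 + (-136 / 121) * s ^ 10 + (30 / 121) * s ^ 11
      + (19 / 121) * s ^ 12 + (-3 / 121) * s ^ 13 + (-1 / 121) * s ^ 14) * hs

end MaxTri.H
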