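import Pool.Agent.Lib.MP_27bb56_co_TRI.Geo

/-! # the inequalities `area ≤ 1 / 2` -/

set_option autoImplicit false

namespace MaxTri

/-- the golden ratio -/
noncomputable def g : ℝ := (1 + √5) / 2

theorem g_sq : g ^ 2 = g + 1 := by
  have h : √5 ^ 2 = (5 : ℝ) := Real.sq_sqrt (by norm_num)
  unfold g
  nlinarith

theorem g_lo : 1.6 < g := by
  have h : √5 ^ 2 = (5 : ℝ) := Real.sq_sqrt (by norm_num)
  have h0 : 0 ≤ √5 := Real.sqrt_nonneg _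
  unfold g
  nlinarith

theorem g_hi : g < 1.62 := by
  have h : √5 ^ 2 = (5 : ℝ) := Real.sq_sqrt (by norm_num)
  have h0 : 0 ≤ √5 := Real.sqrt_nonneg _
  unfold g
  nlinarith

theorem ok_of {a₁ b₁ a₂ b₂ a₃ b₃ : ℝ}
    (h : ((a₂ * b₃ - a₃ * b₂) - (a₁ * b₃ - a₃ * b₁) + (a₁ * b₂ - a₂ * b₁)) ^ 2 ≤
      (a₁ * b₂ - a₂ * b₁) * (a₂ * b₃ - a₃ * b₂) * (a₁ * b₃ - a₃ * b₁)) :
    Ok (a₁, b₁, 1) (a₂, b₂, 1) (a₃, b₃, 1) := by
  unfold Ok det3 dd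
  refine le_trans ?_ (le_abs_self _)
  simpa using h

theorem ok_of' {a₁ b₁ a₂ b₂ a₃ b₃ : ℝ}
    (h : ((a₂ * b₃ - a₃ * b₂) - (a₁ * b₃ - a₃ * b₁) + (a₁ * b₂ - a₂ * b₁)) ^ 2 ≤
      - ((a₁ * b₂ - a₂ * b₁) * (a₂ * b₃ - a₃ * b₂) * (a₁ * b₃ - a₃ * b₁))) :
    Ok (a₁, b₁, 1) (a₂, b₂, 1) (a₃, b₃, 1) := by
  unfold Ok det3 dd
  refine le_trans ?_ (neg_le_abs _)
  simpa using h

theorem cont {a₁ b₁ a₂ b₂ a₃ b₃ : ℝ} (ha₃ : 0 < a₃) (ha₂ : a₃ ≤ a₂) (ha₁ : a₂ ≤ a₁)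
    (hb₁ : 0 < b₁) (hb₂ : b₁ ≤ b₂) (hb₃ : b₂ ≤ b₃) (h1 : 1 ≤ a₂ * b₂)
    (h2 : a₂ * b₃ + a₁ * b₂ ≤ a₁ * b₃) :
    Ok (a₁, b₁, 1) (a₂, b₂, 1) (a₃, b₃, 1) := by
  apply ok_of
  set D12 := a₁ * b₂ - a₂ * b₁ with hD12
  set D23 := a₂ * b₃ - a₃ * b₂ with hD23
  set D13 := a₁ * b₃ - a₃ * b₁ with hD13
  have p12 : 0 ≤ D12 := by
    have : a₂ * b₁ ≤ a₁ * b₂ := by
      apply mul_le_mul ha₁ hb₂ hb₁.le; linarith
    linarith
  have p23 : 0 ≤ D23 := by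
    have : a₃ * b₂ ≤ a₂ * b₃ := by
      apply mul_le_mul ha₂ hb₃ (by linarith); linarith
    linarith
  have hN : 0 ≤ D13 - D12 - D23 := by
    have e1 : a₃ * b₁ ≤ a₂ * b₁ := mul_le_mul_of_nonneg_right ha₂ hb₁.le
    have e2 : 0 ≤ a₃ * b₂ := mul_nonneg ha₃.le (by linarith)
    have : D13 - D12 - D23 = (a₁ * b₃ - a₂ * b₃ - a₁ * b₂) + (a₂ * b₁ - a₃ * b₁) + a₃ * b₂ := by
      rw [hD12, hD23, hD13]; ring
    rw [this]
    linarith
  have hle : D13 - D12 - D23 ≤ D13 := by linarith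
  have e3 : b₂ * (D13 - D12 - D23) = (b₃ - b₂) * D12 - (b₂ - b₁) * D23 := by
    rw [hD12, hD23, hD13]; ring
  have e4 : a₂ * (b₃ - b₂) ≤ D23 := by
    rw [hD23]
    have : a₃ * b₂ ≤ a₂ * b₂ := mul_le_mul_of_nonneg_right ha₂ (by linarith)
    linarith
  have e5 : a₂ * b₂ * (D13 - D12 - D23) ≤ D12 * D23 := by
    have : a₂ * b₂ * (D13 - D12 - D23) = a₂ * (b₃ - b₂) * D12 - a₂ * ((b₂ - b₁) * D23) := by
      rw [mul_assoc, e3]; ring
    rw [this]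
    have q1 : a₂ * (b₃ - b₂) * D12 ≤ D23 * D12 := mul_le_mul_of_nonneg_right e4 p12
    have q2 : 0 ≤ a₂ * ((b₂ - b₁) * D23) :=
      mul_nonneg (by linarith) (mul_nonneg (by linarith) p23)
    linarith
  have e6 : D13 - D12 - D23 ≤ D12 * D23 := by
    have : D13 - D12 - D23 ≤ a₂ * b₂ * (D13 - D12 - D23) := by
      have := mul_le_mul_of_nonneg_right h1 hN
      linarith
    linarith
  have e7 : (D13 - D12 - D23) * (D13 - D12 - D23) ≤ (D12 * D23) * D13 :=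
    mul_le_mul e6 hle hN (mul_nonneg p12 p23)
  have e8 : (D23 - D13 + D12) ^ 2 = (D13 - D12 - D23) * (D13 - D12 - D23) := by ring
  rw [e8]
  exact e7

/-- scaling a block -/
theorem ok_scale {a₁ b₁ a₂ b₂ a₃ b₃ r s : ℝ} (h : r * s = 1)
    (hk : Ok (a₁, b₁, 1) (a₂, b₂, 1) (a₃, b₃, 1)) :
    Ok (a₁ * r, b₁ * s, 1) (a₂ * r, b₂ * s, 1) (a₃ * r, b₃ * s, 1) := by
  unfold Ok det3 dd at *
  simp only at *
  have e : ∀ a b a' b' : ℝ, a * r * (b' * s) - a' * r * (b * s) = a * b' - a' * b := by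
    intro a b a' b'
    have : a * r * (b' * s) - a' * r * (b * s) = (a * b' - a' * b) * (r * s) := by ring
    rw [this, h, mul_one]
  simp only [e]
  exact hk

/-! ### two lines of a block and a line to the right -/

theorem r01 {a b : ℝ} (ha : 0 < a) (ha' : 8 * a ≤ g) (hb : 8 ≤ b) :
    Ok (1, 1, 1) (g - 1, g, 1) (a, b, 1) := by
  have h1 := g_sq
  have h2 := g_lo
  have h3 := g_hi
  apply cont ha <;> nlinarith

theorem r12 {a b : ℝ} (ha : 0 < a) (ha' : 8 * a ≤ g) (hb : 8 ≤ b) :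
    Ok (g - 1, g, 1) (g, g + 1, 1) (a, b, 1) := by
  have h1 := g_sq
  have h2 := g_lo
  have h3 := g_hi
  apply ok_of'
  have e1 : (g - 1) * (g + 1) - g * g = -1 := by nlinarith
  have e2 : ((g * b - a * (g + 1)) - ((g - 1) * b - a * g) + ((g - 1) * (g + 1) - g * g)) =
      b - a - 1 := by rw [e1]; ring
  rw [e2, e1]
  have e3 : - (-1 * (g * b - a * (g + 1)) * ((g - 1) * b - a * g)) - (b - a - 1) ^ 2 =
      2 * g * a ^ 2 - (2 * g - 1) * a * b + 2 * b - 2 * a - 1 := by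
    linear_combination (b ^ 2 + a ^ 2 - 2 * a * b) * h1
  have e4 : 0 ≤ 2 * g * a ^ 2 - (2 * g - 1) * a * b + 2 * b - 2 * a - 1 := by
    have q1 : (2 * g - 1) * a ≤ 0.5 := by nlinarith
    have q2 : (2 * g - 1) * a * b ≤ 0.5 * b := mul_le_mul_of_nonneg_right q1 (by linarith)
    have q3 : 0 ≤ 2 * g * a ^ 2 := by positivity
    nlinarith
  linarith

theorem r02 {a b : ℝ} (ha : 0 < a) (ha' : 8 * a ≤ g) (hb : 8 ≤ b) :
    Ok (1, 1, 1) (g, g + 1, 1) (a, b, 1) := by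
  have h1 := g_sq
  have h2 := g_lo
  have h3 := g_hi
  apply ok_of
  have e1 : (1 : ℝ) * (g + 1) - g * 1 = 1 := by ring
  rw [e1]
  have e3 : 1 * (g * b - a * (g + 1)) * (1 * b - a * 1) -
      (g * b - a * (g + 1) - (1 * b - a * 1) + 1) ^ 2 =
      (2 * g - 2) * b ^ 2 - (2 * g - 1) * a * b - 1 - 2 * (g - 1) * b + 2 * g * a := by
    linear_combination (- b ^ 2 + 2 * a * b - a ^ 2) * h1
  have e4 : 0 ≤ (2 * g - 2) * b ^ 2 - (2 * g - 1) * a * b - 1 - 2 * (g - 1) * b + 2 * g * a := by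
    have q1 : (2 * g - 1) * a ≤ 0.5 := by nlinarith
    have q2 : (2 * g - 1) * a * b ≤ 0.5 * b := mul_le_mul_of_nonneg_right q1 (by linarith)
    have q3 : 0 ≤ g * a := by nlinarith
    have q4 : 1.2 ≤ 2 * g - 2 := by linarith
    have q5 : 7 * b ≤ b ^ 2 - b := by nlinarith
    have q6 : (2 * g - 2) * (7 * b) ≤ (2 * g - 2) * (b ^ 2 - b) :=
      mul_le_mul_of_nonneg_left q5 (by linarith)
    nlinarith
  linarith

/-! ### a line to the left and two lines of a block -/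

theorem l01 {a b : ℝ} (ha : 8 * (g - 1) ≤ a) (hb : 0 < b) (hb' : 8 * b ≤ g + 1) :
    Ok (a, b, 1) (1, 1, 1) (g - 1, g, 1) := by
  have h1 := g_sq
  have h2 := g_lo
  have h3 := g_hi
  apply cont <;> nlinarith

theorem l12 {a b : ℝ} (ha : 8 * (g - 1) ≤ a) (hb : 0 < b) (hb' : 8 * b ≤ g + 1) :
    Ok (a, b, 1) (g - 1, g, 1) (g, g + 1, 1) := by
  have h1 := g_sq
  have h2 := g_lo
  have h3 := g_hi
  apply ok_of'
  have e1 : (g - 1) * (g + 1) - g * g = -1 := by nlinarith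
  rw [e1]
  have e3 : - ((a * g - (g - 1) * b) * -1 * (a * (g + 1) - g * b)) -
      (-1 - (a * (g + 1) - g * b) + (a * g - (g - 1) * b)) ^ 2 =
      2 * g * a ^ 2 - (2 * g - 1) * a * b - 1 - 2 * a + 2 * b := by
    linear_combination (a ^ 2 - 2 * a * b + b ^ 2) * h1
  have e4 : 0 ≤ 2 * g * a ^ 2 - (2 * g - 1) * a * b - 1 - 2 * a + 2 * b := by
    have q1 : (2 * g - 1) * b ≤ 1 := by nlinarith
    have q2 : (2 * g - 1) * b * a ≤ 1 * a := mul_le_mul_of_nonneg_right q1 (by linarith)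
    have q3 : 4.8 ≤ a := by linarith
    have q4 : 4.8 * a ≤ a ^ 2 := by nlinarith
    have q5 : 3.2 * (4.8 * a) ≤ 2 * g * a ^ 2 := by nlinarith
    nlinarith
  linarith

theorem l02 {a b : ℝ} (ha : 8 * (g - 1) ≤ a) (hb : 0 < b) (hb' : 8 * b ≤ g + 1) :
    Ok (a, b, 1) (1, 1, 1) (g, g + 1, 1) := by
  have h1 := g_sq
  have h2 := g_lo
  have h3 := g_hi
  apply ok_of
  have e1 : (1 : ℝ) * (g + 1) - g * 1 = 1 := by ring
  rw [e1]
  have e3 : (a * 1 - 1 * b) * 1 * (a * (g + 1) - g * b) -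
      (1 - (a * (g + 1) - g * b) + (a * 1 - 1 * b)) ^ 2 =
      - (2 * g - 1) * a * b + (2 * g - 2) * b ^ 2 - 1 + 2 * g * a - 2 * (g - 1) * b := by
    linear_combination (- a ^ 2 + 2 * a * b - b ^ 2) * h1
  have e4 : 0 ≤ - (2 * g - 1) * a * b + (2 * g - 2) * b ^ 2 - 1 + 2 * g * a - 2 * (g - 1) * b := by
    have q1 : (2 * g - 1) * b ≤ 1 := by nlinarith
    have q2 : (2 * g - 1) * b * a ≤ 1 * a := mul_le_mul_of_nonneg_right q1 (by linarith)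
    have q3 : 4.8 ≤ a := by linarith
    have q4 : 0 ≤ (2 * g - 2) * b ^ 2 := mul_nonneg (by linarith) (sq_nonneg _)
    have q5 : 3.2 * a ≤ 2 * g * a := by nlinarith
    have q6 : 2 * (g - 1) * b ≤ 1 := by nlinarith
    nlinarith
  linarith

/-- the three lines of a block -/
theorem blk : det3 (1, 1, 1) (g - 1, g, 1) (g, g + 1, 1) = -1 := by
  have h1 := g_sq
  unfold det3 dd
  simp only
  nlinarith

end MaxTri
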